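import Pool.Agent.PPoly.Small
import Mathlib.Data.Int.Interval

/-!
# Flows

Pseudolines are indexed by a type `α : A` and an integer `b`. A flow is one column: a family of
heights `y t α b`, from the initial order `y0 α b` to the order `y0 α (b + E α)`. The orders respect
the rows `b / M`; the rows are processed in increasing order, and at the used times `U a` of the row
`a` exactly two pseudolines of the row meet, with `K` pseudolines of the row strictly below them.
Types are ordered by slope: a pseudoline of larger type crosses at most once from below to above.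
-/

namespace Pool.Agent.PPoly

open Finset

theorem lex_lt {α β : Type*} [Preorder α] [Preorder β] (a b : α) (c d : β) :
    toLex (a, c) < toLex (b, d) ↔ a < b ∨ a = b ∧ c < d :=
  Prod.Lex.toLex_lt_toLex

theorem lex_le {α β : Type*} [Preorder α] [Preorder β] (a b : α) (c d : β) :
    toLex (a, c) ≤ toLex (b, d) ↔ a < b ∨ a = b ∧ c ≤ d :=
  Prod.Lex.toLex_le_toLex

structure Flow : Type 1 where
  A : Type
  T : Type
  Y : Type
  [fA : Fintype A]
  [oA : LinearOrder A]
  [oT : LinearOrder T]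
  [oY : LinearOrder Y]
  M : ℕ
  hM : 0 < M
  E : A → ℤ
  hE : ∀ α, |E α| ≤ 9 * M
  y0 : A → ℤ → Y
  y : T → A → ℤ → Y
  row : T → ℤ
  U : ℤ → Finset T
  m : ℕ
  K : ℕ
  lo : T → A × ℤ
  up : T → A × ℤ
  tt : T
  mono0 : ∀ α b b', b < b' → y0 α b < y0 α b'
  mono : ∀ t α b b', b < b' → y t α b < y t α b'
  row0 : ∀ α β b b', b / (M : ℤ) < b' / (M : ℤ) → y0 α b < y0 β b'
  rowy : ∀ t α β b b', b / (M : ℤ) < b' / (M : ℤ) → y t α b < y t β b'
  shift0 : ∀ α β b b' z, y0 α b < y0 β b' → y0 α (b + M * z) < y0 β (b' + M * z)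
  inj0 : ∀ α β b b', y0 α b = y0 β b' → α = β
  c0 : ∀ α β, α < β → ∀ b b' t, y0 α b < y0 β b' → y t α b < y t β b'
  cT : ∀ α β, α < β → ∀ b b' t t', t < t' → y t α b ≤ y t β b' → y t' α b < y t' β b'
  c1 : ∀ α β, α < β → ∀ b b' t, y t α b ≤ y t β b' → y0 α (b + E α) < y0 β (b' + E β)
  rmono : ∀ t t', t ≤ t' → row t ≤ row t'
  Urow : ∀ a, ∀ t ∈ U a, row t = a
  Ucard : ∀ a, (U a).card = m
  evs : ∀ a, ∀ t ∈ U a, (lo t).1 < (up t).1
  evy : ∀ a, ∀ t ∈ U a, y t (lo t).1 (lo t).2 = y t (up t).1 (up t).2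
  tie : ∀ a, ∀ t ∈ U a, ∀ α b, y t α b = y t (lo t).1 (lo t).2 → (α, b) = lo t ∨ (α, b) = up t
  rlo : ∀ a, ∀ t ∈ U a, (lo t).2 / (M : ℤ) = a
  rup : ∀ a, ∀ t ∈ U a, (up t).2 / (M : ℤ) = a
  evK : ∀ a, ∀ t ∈ U a, (((univ : Finset A) ×ˢ Ico (a * (M : ℤ)) ((a + 1) * (M : ℤ))).filter
      (fun w => y t w.1 w.2 < y t (lo t).1 (lo t).2)).card = K

attribute [instance] Flow.fA Flow.oA Flow.oT Flow.oY

namespace Flow

variable (G : Flow)

theorem inj0' {α β : G.A} {b b' : ℤ} (h : G.y0 α b = G.y0 β b') : α = β ∧ b = b' := by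
  have h1 := G.inj0 _ _ _ _ h
  subst h1
  refine ⟨rfl, ?_⟩
  rcases lt_trichotomy b b' with h2 | h2 | h2
  · exact absurd h (G.mono0 _ _ _ h2).ne
  · exact h2
  · exact absurd h (G.mono0 _ _ _ h2).ne'

theorem inj0_ne {α β : G.A} (h : α ≠ β) {b b' : ℤ} (hle : G.y0 α b ≤ G.y0 β b') :
    G.y0 α b < G.y0 β b' :=
  lt_of_le_of_ne hle (fun h1 => h (G.inj0 _ _ _ _ h1))

/-- the order is kept by the columns -/
theorem chain {α β : G.A} (h : α < β) {b b' : ℤ} (j j' : ℕ) (hj : j ≤ j')
    (h1 : G.y0 α (b + j * G.E α) < G.y0 β (b' + j * G.E β)) :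
    G.y0 α (b + j' * G.E α) < G.y0 β (b' + j' * G.E β) := by
  induction j', hj using Nat.le_induction with
  | base => exact h1
  | succ k hk ih =>
    have h2 := G.c1 _ _ h _ _ G.tt (G.c0 _ _ h _ _ G.tt ih).le
    have e1 : ∀ c e : ℤ, c + ((k + 1 : ℕ) : ℤ) * e = c + k * e + e := by
      intro c e
      push_cast
      ring
    rw [e1, e1]
    exact h2

end Flow

/-! ### The flow of a small arrangement -/

section base

variable (R : Small)

/-- the time of the small arrangement seen by the row `x` when the row `a` is at the time `t` -/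
def fr (a : ℤ) (t : R.T) (x : ℤ) : R.T := if a < x then R.t0 else if x < a then R.t1 else t

theorem fr_self (a : ℤ) (t : R.T) : fr R a t a = t := by
  unfold fr
  rw [if_neg (lt_irrefl _), if_neg (lt_irrefl _)]

theorem fr_mem {a : ℤ} {t : R.T} {x : ℤ} (h : fr R a t x ∈ R.E) : a = x ∧ fr R a t x = t := by
  unfold fr at h ⊢
  by_cases h1 : a < x
  · rw [if_pos h1] at h
    exact absurd h R.h0E
  · rw [if_neg h1] at h ⊢
    by_cases h2 : x < a
    · rw [if_pos h2] at h
      exact absurd h R.h1E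
    · rw [if_neg h2]
      exact ⟨by omega, rfl⟩

theorem fr_mono {a a' : ℤ} {t t' : R.T} (x : ℤ) (h : a < a' ∨ (a = a' ∧ t ≤ t')) :
    fr R a t x ≤ fr R a' t' x := by
  unfold fr
  by_cases h1 : a < x
  · rw [if_pos h1]
    exact R.ht0 _
  · rw [if_neg h1]
    have h2 : ¬ a' < x := by omega
    rw [if_neg h2]
    by_cases h3 : x < a'
    · rw [if_pos h3]
      exact R.ht1 _
    · rw [if_neg h3]
      have h4 : ¬ x < a := by omega
      rw [if_neg h4]
      rcases h with h | h
      · omega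
      · exact h.2

/-- the times of a row -/
def rowEmb (a : ℤ) : R.T ↪ ℤ ×ₗ R.T :=
  ⟨fun t => toLex (a, t), fun t t' h => by
    have h1 : (toLex (a, t) : ℤ ×ₗ R.T) = toLex (a, t') := h
    rw [toLex_inj, Prod.mk.injEq] at h1
    exact h1.2⟩

theorem rowEmb_apply (a : ℤ) (t : R.T) : rowEmb R a t = toLex (a, t) := rfl

/-- the pseudolines of a row -/
def colEmb (a : ℤ) : Fin R.n ↪ Fin R.n × ℤ :=
  ⟨fun i => (i, a), fun _ _ h => (Prod.mk.inj h).1⟩

theorem colEmb_apply (a : ℤ) (i : Fin R.n) : colEmb R a i = (i, a) := rfl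

/-- small arrangement in every row -/
def Small.flow (hR : ∀ l : Fin R.n, |((l : ℕ) : ℤ) - 4| ≤ 4) : Flow where
  A := Fin R.n
  T := ℤ ×ₗ R.T
  Y := ℤ ×ₗ ℕ
  M := 1
  hM := Nat.one_pos
  E := fun l => (l : ℕ) - 4
  hE := fun l => by
    have := hR l
    push_cast
    linarith
  y0 := fun l b => toLex (b, R.y R.t0 l)
  y := fun τ l b => toLex (b, R.y (fr R (ofLex τ).1 (ofLex τ).2 b) l)
  row := fun τ => (ofLex τ).1
  U := fun a => R.E.map (rowEmb R a)
  m := R.E.card
  K := R.K
  lo := fun τ => (R.lo (ofLex τ).2, (ofLex τ).1)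
  up := fun τ => (R.up (ofLex τ).2, (ofLex τ).1)
  tt := toLex (0, R.t0)
  mono0 := by
    intro l b b' h
    rw [lex_lt]
    exact Or.inl h
  mono := by
    intro t l b b' h
    rw [lex_lt]
    exact Or.inl h
  row0 := by
    intro l l' b b' h
    rw [lex_lt]
    left
    simpa using h
  rowy := by
    intro t l l' b b' h
    rw [lex_lt]
    left
    simpa using h
  shift0 := by
    intro l l' b b' z h
    rw [lex_lt] at h ⊢
    rcases h with h | h
    · left
      simpa using h
    · right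
      exact ⟨by rw [h.1], h.2⟩
  inj0 := by
    intro l l' b b' h
    rw [toLex_inj, Prod.mk.injEq] at h
    exact R.inj_of R.h0E h.2
  c0 := by
    intro l l' hl b b' t h
    rw [lex_lt] at h ⊢
    rcases h with h | ⟨h, h2⟩
    · exact Or.inl h
    · right
      refine ⟨h, ?_⟩
      rw [← h]
      rcases lt_or_eq_of_le (R.ht0 (fr R (ofLex t).1 (ofLex t).2 b)) with h3 | h3
      · exact R.cross _ _ hl _ _ h3 h2.le
      · rw [← h3]
        exact h2
  cT := by
    intro l l' hl b b' t t' ht h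
    rw [lex_le] at h
    rw [lex_lt]
    rcases h with h | ⟨h, h2⟩
    · exact Or.inl h
    · right
      refine ⟨h, ?_⟩
      rw [← h] at h2 ⊢
      have h4 : fr R (ofLex t).1 (ofLex t).2 b ≤ fr R (ofLex t').1 (ofLex t').2 b := by
        apply fr_mono
        rw [Prod.Lex.lt_iff] at ht
        rcases ht with h5 | h5
        · exact Or.inl h5
        · exact Or.inr ⟨h5.1, h5.2.le⟩
      rcases lt_or_eq_of_le h4 with h3 | h3
      · exact R.cross _ _ hl _ _ h3 h2
      · rw [← h3]
        refine lt_of_le_of_ne h2 ?_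
        intro h5
        have h6 := (R.tie _ _ _ hl h5).1
        have h7 := fr_mem R h6
        rw [h3] at h6
        have h8 := fr_mem R h6
        rw [Prod.Lex.lt_iff] at ht
        rcases ht with h9 | h9
        · omega
        · rw [← h7.2, h3, h8.2] at h9
          exact lt_irrefl _ h9.2
  c1 := by
    intro l l' hl b b' t h
    rw [lex_le] at h
    rw [lex_lt]
    left
    have h1 : b ≤ b' := by
      rcases h with h | h
      · exact h.le
      · exact h.1.le
    have h2 : (l : ℕ) < (l' : ℕ) := hl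
    omega
  rmono := by
    intro t t' h
    rw [Prod.Lex.le_iff] at h
    rcases h with h | h
    · exact h.le
    · exact h.1.le
  Urow := by
    intro a t h
    rw [mem_map] at h
    obtain ⟨t', _, rfl⟩ := h
    rfl
  Ucard := by
    intro a
    rw [card_map]
  evs := by
    intro a t h
    rw [mem_map] at h
    obtain ⟨t', h1, rfl⟩ := h
    exact R.evs _ h1
  evy := by
    intro a t h
    rw [mem_map] at h
    obtain ⟨t', h1, rfl⟩ := h
    simp only [rowEmb_apply, ofLex_toLex, fr_self]
    rw [R.evy _ h1]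
  tie := by
    intro a t h l b h2
    rw [mem_map] at h
    obtain ⟨t', h1, rfl⟩ := h
    simp only [rowEmb_apply, ofLex_toLex, fr_self] at h2 ⊢
    rw [toLex_inj, Prod.mk.injEq] at h2
    obtain ⟨h3, h4⟩ := h2
    rw [h3, fr_self] at h4
    rcases R.eq_lo h4 with h5 | h5
    · left
      rw [h5, h3]
    · right
      rw [h5.2, h3]
  rlo := by
    intro a t h
    rw [mem_map] at h
    obtain ⟨t', h1, rfl⟩ := h
    simp [rowEmb_apply]
  rup := by
    intro a t h
    rw [mem_map] at h
    obtain ⟨t', h1, rfl⟩ := h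
    simp [rowEmb_apply]
  evK := by
    intro a t h
    rw [mem_map] at h
    obtain ⟨t', h1, rfl⟩ := h
    rw [← R.evK _ h1]
    have h2 : (((univ : Finset (Fin R.n)) ×ˢ Ico (a * ((1 : ℕ) : ℤ)) ((a + 1) * ((1 : ℕ) : ℤ))).filter
        (fun w => (toLex (w.2, R.y (fr R a t' w.2) w.1) : ℤ ×ₗ ℕ)
          < toLex (a, R.y (fr R a t' a) (R.lo t'))))
        = (univ.filter (fun i => R.y t' i < R.y t' (R.lo t'))).map
          (colEmb R a) := by
      ext w
      rw [mem_filter, mem_product, mem_Ico, mem_map]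
      constructor
      · rintro ⟨⟨_, h3, h4⟩, h5⟩
        have h6 : w.2 = a := by push_cast at h3 h4; omega
        rw [lex_lt, h6, fr_self] at h5
        refine ⟨w.1, ?_, ?_⟩
        · rw [mem_filter]
          refine ⟨mem_univ _, ?_⟩
          rcases h5 with h5 | h5
          · exact absurd h5 (lt_irrefl _)
          · exact h5.2
        · rw [← h6]
          rfl
      · rintro ⟨i, hi, rfl⟩
        rw [mem_filter] at hi
        rw [colEmb_apply]
        refine ⟨⟨mem_univ _, ?_⟩, ?_⟩
        · simp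
        · rw [lex_lt]
          right
          simp only [fr_self]
          exact ⟨trivial, hi.2⟩
    have h3 := congrArg card h2
    rw [card_map] at h3
    exact h3

end base

end Pool.Agent.PPoly
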