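import Pool.Agent.PLevel.Words
import Pool.Agent.PPoly.Flow

/-!
# From a configuration to a sweep

`r` copies of the configuration are put above `p` pseudolines and below `q` pseudolines; the copies
are processed one after the other and each processed copy goes to the top.
-/

namespace Pool.Agent.PPoly

open Finset
open Pool.Agent.PLevel (Sweep Weak exists_chain weak_one)

/-- A finite configuration of pseudolines with events at one level. -/
structure Bas : Type 1 where
  W : Type
  T : Type
  A : Type
  [fW : Fintype W]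
  [oT : LinearOrder T]
  [oA : LinearOrder A]
  y : T → W → A
  sl : W → ℕ
  E : Finset T
  lo : T → W
  up : T → W
  K : ℕ
  t0 : T
  t1 : T
  ht0 : ∀ t, t0 ≤ t
  ht1 : ∀ t, t ≤ t1
  inj0 : ∀ i j, y t0 i = y t0 j → i = j
  cross : ∀ i j, sl i < sl j → ∀ t t', t < t' → y t i ≤ y t j → y t' i < y t' j
  par : ∀ i j, i ≠ j → sl i = sl j → ∀ t t', y t i < y t j → y t' i < y t' j
  parne : ∀ i j, i ≠ j → sl i = sl j → ∀ t, y t i ≠ y t j
  tie : ∀ t ∈ E, ∀ i, y t i = y t (lo t) → i = lo t ∨ i = up t
  evy : ∀ t ∈ E, y t (lo t) = y t (up t)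
  evs : ∀ t ∈ E, sl (lo t) < sl (up t)
  evK : ∀ t ∈ E, (Finset.univ.filter (fun i => y t i < y t (lo t))).card = K

attribute [instance] Bas.fW Bas.oT Bas.oA

section pos

variable {ι α : Type*} [Fintype ι] [LinearOrder α] {n : ℕ}

/-- number of elements strictly below -/
def pos (h : ι → α) (i : ι) : ℕ := (univ.filter (fun j => h j < h i)).card

theorem pos_lt (h : ι → α) {i j : ι} (hij : h i < h j) : pos h i < pos h j := by
  unfold pos
  refine card_lt_card ?_
  rw [ssubset_iff_of_subset]
  · refine ⟨i, ?_, ?_⟩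
    · rw [mem_filter]
      exact ⟨mem_univ _, hij⟩
    · rw [mem_filter]
      intro h2
      exact lt_irrefl _ h2.2
  · intro s hs
    rw [mem_filter] at hs ⊢
    exact ⟨hs.1, lt_trans hs.2 hij⟩

theorem pos_lt_card (h : ι → α) (i : ι) : pos h i < Fintype.card ι := by
  unfold pos
  rw [← card_univ]
  refine card_lt_card ?_
  rw [ssubset_iff_of_subset (subset_univ _)]
  refine ⟨i, mem_univ _, ?_⟩
  rw [mem_filter]
  intro h2
  exact lt_irrefl _ h2.2

/-- the ranking of the elements -/
noncomputable def posE (h : ι → α) (hinj : Function.Injective h) (hn : Fintype.card ι = n) :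
    ι ≃ Fin n :=
  Equiv.ofBijective (fun i => (⟨pos h i, by rw [← hn]; exact pos_lt_card h i⟩ : Fin n)) (by
    rw [Fintype.bijective_iff_injective_and_card]
    refine ⟨?_, by rw [Fintype.card_fin, hn]⟩
    intro i j hij
    simp only [Fin.mk.injEq] at hij
    rcases lt_trichotomy (h i) (h j) with h1 | h1 | h1
    · exact absurd hij (pos_lt h h1).ne
    · exact hinj h1
    · exact absurd hij (pos_lt h h1).ne')

theorem posE_val (h : ι → α) (hinj : Function.Injective h) (hn : Fintype.card ι = n) (i : ι) :
    (posE h hinj hn i).1 = pos h i := rfl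

theorem posE_lt (h : ι → α) (hinj : Function.Injective h) (hn : Fintype.card ι = n) (i j : ι) :
    posE h hinj hn i < posE h hinj hn j ↔ h i < h j := by
  rw [Fin.lt_def, posE_val, posE_val]
  constructor
  · intro h1
    by_contra h2
    rcases lt_or_eq_of_le (not_lt.1 h2) with h3 | h3
    · exact lt_asymm h1 (pos_lt h h3)
    · rw [hinj h3] at h1
      exact lt_irrefl _ h1
  · exact pos_lt h

end pos

namespace Bas

variable (G : Bas) (r p q : ℕ)

/-- inner height -/
def ihg (s : G.T × Bool) (i : G.W) : G.A ×ₗ ℤ :=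
  toLex (G.y s.1 i, if s.2 then (G.sl i : ℤ) else -(G.sl i : ℤ))

variable {G}

theorem ihg_inj (s : G.T × Bool) : Function.Injective (G.ihg s) := by
  intro i j h
  unfold ihg at h
  rw [toLex_inj, Prod.mk.injEq] at h
  by_contra hne
  have h4 : (G.sl i : ℤ) = G.sl j := by
    have := h.2
    split_ifs at this with h5
    · exact this
    · exact neg_injective this
  have h5 : G.sl i = G.sl j := by exact_mod_cast h4
  exact G.parne i j hne h5 _ h.1

theorem ihg_mono {s s' : G.T × Bool} (hs : s.1 < s'.1 ∨ (s.1 = s'.1 ∧ (s.2 = true → s'.2 = true)))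
    {i j : G.W} (h0 : G.ihg (G.t0, false) i < G.ihg (G.t0, false) j)
    (h1 : G.ihg s j < G.ihg s i) : G.ihg s' j < G.ihg s' i := by
  unfold ihg at h0 h1 ⊢
  rw [lex_lt] at h0 h1 ⊢
  simp only [Bool.false_eq_true, if_false] at h0
  have hij : i ≠ j := by
    rintro rfl
    rcases h0 with h2 | h2
    · exact lt_irrefl _ h2
    · exact lt_irrefl _ h2.2
  have hyl : G.y s.1 j ≤ G.y s.1 i := by
    rcases h1 with h2 | h2
    · exact h2.le
    · exact h2.1.le
  have h0' : G.y G.t0 i < G.y G.t0 j := by
    rcases h0 with h2 | h2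
    · exact h2
    · exfalso
      exact hij (G.inj0 _ _ h2.1)
  rcases lt_trichotomy (G.sl i) (G.sl j) with h2 | h2 | h2
  · exfalso
    rcases lt_or_eq_of_le (G.ht0 s.1) with h3 | h3
    · have := G.cross i j h2 _ _ h3 h0'.le
      exact absurd hyl (not_le.2 this)
    · rw [← h3] at hyl
      exact absurd hyl (not_le.2 h0')
  · exfalso
    have := G.par i j hij h2 G.t0 s.1 h0'
    exact absurd hyl (not_le.2 this)
  · rcases hs with h3 | ⟨h3, h4⟩
    · left
      exact G.cross j i h2 _ _ h3 hyl
    · rw [← h3]
      rcases h1 with h5 | ⟨h5, h6⟩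
      · exact Or.inl h5
      · right
        refine ⟨h5, ?_⟩
        have h7 : (G.sl j : ℤ) < G.sl i := by exact_mod_cast h2
        by_cases h8 : s.2 = true
        · rw [if_pos (h4 h8), if_pos (h4 h8)]
          exact h7
        · exfalso
          rw [if_neg h8, if_neg h8] at h6
          linarith

variable (G)

/-- state of the copy `x` at an instant -/
def ist (z : ℕ) (t : G.T) (e : Bool) (x : ℕ) : G.T × Bool :=
  if z < x then (G.t0, false) else if z = x then (t, e) else (G.t1, true)

/-- place of the copy `x` -/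
def fz (r z x : ℕ) : ℤ := if z ≤ x then x else 2 * r - x

/-- all pseudolines -/
abbrev Wire : Type := (Fin r × G.W) ⊕ (Fin p ⊕ Fin q)

/-- heights -/
abbrev Hgt : Type := ℤ ×ₗ (G.A ×ₗ ℤ)

/-- instants -/
abbrev Ins : Type := ℕ ×ₗ (G.T ×ₗ Bool)

/-- the height of a pseudoline at an instant -/
def hgt (s : Ins G) : Wire G r p q → Hgt G
  | Sum.inl w => toLex (fz r (ofLex s).1 w.1.1,
      G.ihg (G.ist (ofLex s).1 (ofLex (ofLex s).2).1 (ofLex (ofLex s).2).2 w.1.1) w.2)
  | Sum.inr (Sum.inl j) => toLex ((j.1 : ℤ) - p, toLex (G.y G.t0 (G.lo G.t0), 0))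
  | Sum.inr (Sum.inr j) => toLex ((j.1 : ℤ) + 2 * r + 1, toLex (G.y G.t0 (G.lo G.t0), 0))

/-- the first instant -/
def ins0 : Ins G := toLex (0, toLex (G.t0, false))

variable {G r p q}

theorem fz_inj {z x x' : ℕ} (hx : x < r) (hx' : x' < r) (h : fz r z x = fz r z x') : x = x' := by
  unfold fz at h
  split_ifs at h with h1 h2 h2 <;> omega

theorem fz_nonneg {z x : ℕ} (hx : x < r) : 0 ≤ fz r z x := by
  unfold fz
  split_ifs with h1 <;> omega

theorem fz_le {z x : ℕ} (hx : x < r) : fz r z x ≤ 2 * r := by
  unfold fz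
  split_ifs with h1 <;> omega

theorem hgt_inj (s : Ins G) : Function.Injective (hgt G r p q s) := by
  intro a b h
  rcases a with ⟨x, i⟩ | a | a <;> rcases b with ⟨x', i'⟩ | b | b <;>
    simp only [hgt, toLex_inj, Prod.mk.injEq] at h
  · have h1 := fz_inj x.2 x'.2 h.1
    have h2 : x = x' := Fin.ext h1
    subst h2
    have h3 := ihg_inj _ h.2
    rw [h3]
  · have := fz_nonneg (z := (ofLex s).1) x.2
    have := b.2
    omega
  · have := fz_le (z := (ofLex s).1) x.2
    omega
  · have := fz_nonneg (z := (ofLex s).1) x'.2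
    have := a.2
    omega
  · have h1 : a.1 = b.1 := by omega
    rw [Fin.ext h1]
  · have := a.2
    omega
  · have := fz_le (z := (ofLex s).1) x'.2
    omega
  · have := b.2
    omega
  · have h1 : a.1 = b.1 := by omega
    rw [Fin.ext h1]

theorem ist_mono {s s' : Ins G} (hs : s ≤ s') (x : ℕ) :
    (G.ist (ofLex s).1 (ofLex (ofLex s).2).1 (ofLex (ofLex s).2).2 x).1
      < (G.ist (ofLex s').1 (ofLex (ofLex s').2).1 (ofLex (ofLex s').2).2 x).1 ∨
    ((G.ist (ofLex s).1 (ofLex (ofLex s).2).1 (ofLex (ofLex s).2).2 x).1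
      = (G.ist (ofLex s').1 (ofLex (ofLex s').2).1 (ofLex (ofLex s').2).2 x).1 ∧
      ((G.ist (ofLex s).1 (ofLex (ofLex s).2).1 (ofLex (ofLex s).2).2 x).2 = true →
      (G.ist (ofLex s').1 (ofLex (ofLex s').2).1 (ofLex (ofLex s').2).2 x).2 = true)) := by
  rw [Prod.Lex.le_iff, Prod.Lex.le_iff] at hs
  set z := (ofLex s).1
  set t := (ofLex (ofLex s).2).1
  set e := (ofLex (ofLex s).2).2
  set z' := (ofLex s').1
  set t' := (ofLex (ofLex s').2).1
  set e' := (ofLex (ofLex s').2).2
  unfold ist
  by_cases h1 : z < x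
  · rw [if_pos h1]
    rcases lt_or_eq_of_le (G.ht0 (if z' < x then (G.t0, false) else if z' = x then (t', e') else
      (G.t1, true)).1) with h2 | h2
    · exact Or.inl h2
    · right
      refine ⟨h2, ?_⟩
      intro h3
      simp at h3
  · rw [if_neg h1]
    by_cases h2 : z = x
    · rw [if_pos h2]
      have h3 : ¬ z' < x := by
        rcases hs with h3 | h3
        · omega
        · rw [← h3.1]
          exact h1
      rw [if_neg h3]
      by_cases h4 : z' = x
      · rw [if_pos h4]
        rcases hs with h5 | ⟨_, h5⟩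
        · omega
        · rcases h5 with h6 | ⟨h6, h7⟩
          · exact Or.inl h6
          · right
            refine ⟨h6, ?_⟩
            intro h8
            simp only at h8 ⊢
            rw [h8] at h7
            exact top_le_iff.1 h7
      · rw [if_neg h4]
        rcases lt_or_eq_of_le (G.ht1 t) with h5 | h5
        · exact Or.inl h5
        · right
          exact ⟨h5, fun _ => rfl⟩
    · rw [if_neg h2]
      have h3 : ¬ z' < x := by
        rcases hs with h3 | h3
        · omega
        · rw [← h3.1]
          exact h1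
      have h4 : ¬ z' = x := by
        rcases hs with h3 | h3
        · omega
        · rw [← h3.1]
          exact h2
      rw [if_neg h3, if_neg h4]
      right
      exact ⟨rfl, fun _ => rfl⟩

theorem ist0 (x : ℕ) : G.ist 0 G.t0 false x = (G.t0, false) := by
  unfold ist
  by_cases h4 : 0 < x
  · rw [if_pos h4]
  · rw [if_neg h4, if_pos (by omega)]

theorem hgt_mono {s s' : Ins G} (hs : s ≤ s') {a b : Wire G r p q}
    (h0 : hgt G r p q (ins0 G) a < hgt G r p q (ins0 G) b)
    (h1 : hgt G r p q s b < hgt G r p q s a) : hgt G r p q s' b < hgt G r p q s' a := by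
  rcases a with ⟨x, i⟩ | a | a <;> rcases b with ⟨x', i'⟩ | b | b
  · by_cases hx : x = x'
    · subst hx
      simp only [hgt, lex_lt] at h0 h1 ⊢
      right
      refine ⟨trivial, ?_⟩
      have h0' := (h0.resolve_left (lt_irrefl _)).2
      have h1' := (h1.resolve_left (lt_irrefl _)).2
      refine ihg_mono (ist_mono hs x.1) ?_ h1'
      have h3 : G.ist (ofLex (ins0 G)).1 (ofLex (ofLex (ins0 G)).2).1
          (ofLex (ofLex (ins0 G)).2).2 x.1 = (G.t0, false) := ist0 x.1
      rwa [h3] at h0'
    · have hx1 : x.1 ≠ x'.1 := fun h => hx (Fin.ext h)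
      have hzz : (ofLex s).1 ≤ (ofLex s').1 := by
        rw [Prod.Lex.le_iff] at hs
        rcases hs with h | h
        · exact h.le
        · exact h.1.le
      simp only [hgt, lex_lt] at h0 h1 ⊢
      left
      have h2 : fz r (ofLex (ins0 G)).1 x.1 < fz r (ofLex (ins0 G)).1 x'.1 := by
        rcases h0 with h | h
        · exact h
        · exact absurd (fz_inj x.2 x'.2 h.1) hx1
      have h3 : fz r (ofLex s).1 x'.1 < fz r (ofLex s).1 x.1 := by
        rcases h1 with h | h
        · exact h
        · exact absurd (fz_inj x.2 x'.2 h.1.symm) hx1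
      have h4 : (ofLex (ins0 G)).1 = 0 := rfl
      rw [h4] at h2
      have hx2 := x.2
      have hx3 := x'.2
      unfold fz at h2 h3 ⊢
      rw [if_pos (Nat.zero_le _), if_pos (Nat.zero_le _)] at h2
      split_ifs at h3 ⊢ with h5 h6 h7 h8 h9 <;> omega
  · exfalso
    simp only [hgt, lex_lt] at h0
    have := fz_nonneg (z := (ofLex (ins0 G)).1) x.2
    have := b.2
    omega
  · exfalso
    simp only [hgt, lex_lt] at h1
    have := fz_le (z := (ofLex s).1) x.2
    omega
  · exfalso
    simp only [hgt, lex_lt] at h1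
    have := fz_nonneg (z := (ofLex s).1) x'.2
    have := a.2
    omega
  · exact absurd h0 (lt_asymm h1)
  · exact absurd h0 (lt_asymm h1)
  · exfalso
    simp only [hgt, lex_lt] at h0
    have := fz_le (z := (ofLex (ins0 G)).1) x'.2
    omega
  · exact absurd h0 (lt_asymm h1)
  · exact absurd h0 (lt_asymm h1)

theorem card_wire : Fintype.card (Wire G r p q) = r * Fintype.card G.W + (p + q) := by
  simp [Fintype.card_sum, Fintype.card_prod, Fintype.card_fin]

/-- the permutation at an instant -/
noncomputable def prm {n : ℕ} (hn : Fintype.card (Wire G r p q) = n) (s : Ins G) :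
    Equiv.Perm (Fin n) :=
  (posE (hgt G r p q s) (hgt_inj s) hn).symm.trans (posE (hgt G r p q (ins0 G)) (hgt_inj _) hn)

theorem prm_symm_apply {n : ℕ} (hn : Fintype.card (Wire G r p q) = n) (s : Ins G)
    (a : Wire G r p q) :
    (prm hn s).symm (posE (hgt G r p q (ins0 G)) (hgt_inj _) hn a)
      = posE (hgt G r p q s) (hgt_inj s) hn a := by
  unfold prm
  simp

theorem prm_apply {n : ℕ} (hn : Fintype.card (Wire G r p q) = n) (s : Ins G)
    (a : Wire G r p q) :
    prm hn s (posE (hgt G r p q s) (hgt_inj s) hn a)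
      = posE (hgt G r p q (ins0 G)) (hgt_inj _) hn a := by
  unfold prm
  simp

theorem prm_weak {n : ℕ} (hn : Fintype.card (Wire G r p q) = n) {s s' : Ins G} (hs : s ≤ s') :
    Weak (prm hn s) (prm hn s') := by
  intro a b h1 h2
  obtain ⟨a', rfl⟩ := (posE (hgt G r p q (ins0 G)) (hgt_inj _) hn).surjective a
  obtain ⟨b', rfl⟩ := (posE (hgt G r p q (ins0 G)) (hgt_inj _) hn).surjective b
  rw [prm_symm_apply, prm_symm_apply, posE_lt] at h2 ⊢
  rw [posE_lt] at h1
  exact hgt_mono hs h1 h2

/-- the crossing in the copy `z` at the event `t` -/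
theorem prm_event {n : ℕ} (hn : Fintype.card (Wire G r p q) = n) {z : ℕ} (hz : z < r) {t : G.T}
    (ht : t ∈ G.E) :
    ∃ c : Fin n, c.1 ≤ p + G.K ∧
      p + G.K < ((prm hn (toLex (z, toLex (t, true)))).symm
        (prm hn (toLex (z, toLex (t, false))) c)).1 := by
  classical
  have hK := G.evK t ht
  have hev := G.evy t ht
  have hsl := G.evs t ht
  set a : Wire G r p q := Sum.inl (⟨z, hz⟩, G.up t) with ha
  have hist : ∀ e, G.ist z t e z = (t, e) := by
    intro e
    unfold ist
    rw [if_neg (lt_irrefl _), if_pos rfl]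
  have hfz : fz r z z = z := by
    unfold fz
    rw [if_pos le_rfl]
  let F : Finset G.W := univ.filter (fun i => G.y t i < G.y t (G.lo t))
  let em : G.W ↪ Fin r × G.W := ⟨fun i => (⟨z, hz⟩, i), fun i j h => (Prod.mk.inj h).2⟩
  refine ⟨posE (hgt G r p q (toLex (z, toLex (t, false)))) (hgt_inj _) hn a, ?_, ?_⟩
  · rw [posE_val]
    unfold pos
    have hsub : (univ.filter (fun j => hgt G r p q (toLex (z, toLex (t, false))) j
        < hgt G r p q (toLex (z, toLex (t, false))) a))
        ⊆ (F.map em).disjSum ((univ : Finset (Fin p)).disjSum (∅ : Finset (Fin q))) := by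
      intro j hj
      rw [mem_filter] at hj
      have hj' := hj.2
      rcases j with ⟨x, i⟩ | j | j
      · rw [inl_mem_disjSum, mem_map]
        simp only [ha, hgt, ofLex_toLex, lex_lt] at hj'
        have hxz : x.1 = z := by
          by_contra hne
          have h1 : fz r z x.1 ≤ fz r z z := by
            rcases hj' with h | h
            · exact h.le
            · exact h.1.le
          rw [hfz] at h1
          have hx2 := x.2
          unfold fz at h1
          split_ifs at h1 with h2 <;> omega
        have hx : x = ⟨z, hz⟩ := Fin.ext hxz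
        subst hx
        have h2 := (hj'.resolve_left (lt_irrefl _)).2
        rw [hist] at h2
        refine ⟨i, ?_, rfl⟩
        simp only [F, mem_filter]
        refine ⟨mem_univ _, ?_⟩
        unfold ihg at h2
        rw [lex_lt] at h2
        simp only [Bool.false_eq_true, if_false] at h2
        rcases h2 with h3 | ⟨h3, h4⟩
        · rw [hev]
          exact h3
        · exfalso
          have hne : i ≠ G.up t := by
            rintro rfl
            exact lt_irrefl _ h4
          have h5 := G.tie t ht i (h3.trans hev.symm)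
          rcases h5 with h6 | h6
          · rw [h6] at h4
            have : (G.sl (G.lo t) : ℤ) < G.sl (G.up t) := by exact_mod_cast hsl
            linarith
          · exact hne h6
      · rw [inr_mem_disjSum, inl_mem_disjSum]
        exact mem_univ _
      · exfalso
        simp only [ha, hgt, ofLex_toLex, lex_lt] at hj'
        have := fz_le (z := z) hz
        omega
    have := card_le_card hsub
    rw [card_disjSum, card_disjSum, card_map, card_univ, Fintype.card_fin, card_empty] at this
    have hF : F.card = G.K := hK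
    omega
  · rw [prm_apply, prm_symm_apply, posE_val]
    unfold pos
    have hsub : ((insert (G.lo t) F).map em).disjSum
        ((univ : Finset (Fin p)).disjSum (∅ : Finset (Fin q)))
        ⊆ (univ.filter (fun j => hgt G r p q (toLex (z, toLex (t, true))) j
        < hgt G r p q (toLex (z, toLex (t, true))) a)) := by
      intro j hj
      rw [mem_filter]
      refine ⟨mem_univ _, ?_⟩
      rcases j with ⟨x, i⟩ | j | j
      · rw [inl_mem_disjSum, mem_map] at hj
        obtain ⟨i', hi', h1⟩ := hj
        have h2 := Prod.mk.inj h1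
        obtain ⟨h3, h4⟩ := h2
        subst h3
        subst h4
        simp only [ha, hgt, ofLex_toLex, lex_lt]
        right
        refine ⟨trivial, ?_⟩
        rw [hist]
        unfold ihg
        rw [lex_lt]
        simp only [if_true]
        rw [mem_insert] at hi'
        rcases hi' with h5 | h5
        · right
          rw [h5]
          exact ⟨hev, by exact_mod_cast hsl⟩
        · left
          simp only [F, mem_filter] at h5
          rw [← hev]
          exact h5.2
      · simp only [ha, hgt, ofLex_toLex, lex_lt]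
        left
        have := fz_nonneg (z := z) hz
        have := j.2
        omega
      · exfalso
        rw [inr_mem_disjSum, inr_mem_disjSum] at hj
        simp at hj
    refine lt_of_lt_of_le ?_ (card_le_card hsub)
    have hlo : G.lo t ∉ F := by
      simp only [F, mem_filter]
      rintro ⟨_, h⟩
      exact lt_irrefl _ h
    rw [card_disjSum, card_disjSum, card_map, card_insert_of_notMem hlo, card_univ,
      Fintype.card_fin, card_empty]
    have hF : F.card = G.K := hK
    omega

/-- The sweep of `r` copies of a configuration with `p` pseudolines below and `q` above. -/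
theorem assemble (G : Bas) {n r p q : ℕ} (hn : n = r * Fintype.card G.W + (p + q)) :
    ∃ w, Sweep n 1 w Fin.revPerm ∧ r * G.E.card ≤ w.count (p + G.K) := by
  have hn' : Fintype.card (Wire G r p q) = n := by rw [card_wire, hn]
  let S : Finset (ℕ ×ₗ G.T) := (Finset.range r ×ˢ G.E).map toLex.toEmbedding
  have hS : S.card = r * G.E.card := by
    simp only [S]
    rw [card_map, card_product, card_range]
  let P : ℕ ×ₗ G.T → Bool → Equiv.Perm (Fin n) := fun e b =>
    prm hn' (toLex ((ofLex e).1, toLex ((ofLex e).2, b)))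
  have hmemS : ∀ e ∈ S, (ofLex e).1 < r ∧ (ofLex e).2 ∈ G.E := by
    intro e he
    simp only [S, mem_map] at he
    obtain ⟨e', he', rfl⟩ := he
    rw [mem_product, mem_range] at he'
    exact he'
  have h1 : ∀ e ∈ (S.sort (· ≤ ·)).map (fun e => (P e false, P e true)), Weak 1 e.1 :=
    fun e _ => weak_one _
  have h2 : ∀ e ∈ (S.sort (· ≤ ·)).map (fun e => (P e false, P e true)),
      Weak e.1 e.2 ∧ ∃ c : Fin n, c.1 ≤ p + G.K ∧ p + G.K < (e.2.symm (e.1 c)).1 := by
    intro e he
    rw [List.mem_map] at he
    obtain ⟨e', he', rfl⟩ := he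
    rw [mem_sort] at he'
    obtain ⟨h1, h2⟩ := hmemS e' he'
    refine ⟨prm_weak hn' ?_, prm_event hn' h1 h2⟩
    rw [Prod.Lex.le_iff, Prod.Lex.le_iff]
    right
    refine ⟨rfl, Or.inr ⟨rfl, ?_⟩⟩
    exact Bool.false_le _
  have h3 : ((S.sort (· ≤ ·)).map (fun e => (P e false, P e true))).Pairwise
      (fun e e' => Weak e.2 e'.1) := by
    rw [List.pairwise_map]
    refine (sortedLT_sort S).pairwise.imp ?_
    intro e e' h
    refine prm_weak hn' ?_
    rw [Prod.Lex.lt_iff] at h
    rw [Prod.Lex.le_iff, Prod.Lex.le_iff]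
    rcases h with h | ⟨h, h'⟩
    · exact Or.inl h
    · right
      exact ⟨h, Or.inl h'⟩
  obtain ⟨w, hw, hl⟩ := exists_chain (p + G.K) _ 1 h1 h2 h3
  refine ⟨w, hw, ?_⟩
  rw [List.length_map, length_sort, hS] at hl
  exact hl

end Bas

end Pool.Agent.PPoly
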