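import Pool.Agent.PPoly.Assemble

/-!
# One row of a flow as a finite configuration
-/

namespace Pool.Agent.PPoly

open Finset

section

variable (G : Flow)

/-- times of a flow with a first and a last time -/
def TT : Type := {x : ℕ ×ₗ G.T // ((ofLex x).1 = 0 → (ofLex x).2 = G.tt) ∧
  ((ofLex x).1 = 2 → (ofLex x).2 = G.tt) ∧ (ofLex x).1 ≤ 2}

instance : LinearOrder (TT G) := inferInstanceAs (LinearOrder {x : ℕ ×ₗ G.T //
  ((ofLex x).1 = 0 → (ofLex x).2 = G.tt) ∧
  ((ofLex x).1 = 2 → (ofLex x).2 = G.tt) ∧ (ofLex x).1 ≤ 2})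

/-- heights with the first and the last order -/
def yy (x : TT G) (w : G.A × Fin G.M) : G.Y :=
  if (ofLex x.1).1 = 0 then G.y0 w.1 (w.2 : ℕ)
  else if (ofLex x.1).1 = 2 then G.y0 w.1 ((w.2 : ℕ) + G.E w.1)
  else G.y (ofLex x.1).2 w.1 (w.2 : ℕ)

/-- rank of a type -/
def rank (α : G.A) : ℕ := (univ.filter (fun β => β < α)).card

variable {G}

theorem rank_lt {α β : G.A} (h : α < β) : rank G α < rank G β := by
  refine card_lt_card ?_
  rw [ssubset_iff_of_subset]
  · refine ⟨α, ?_, ?_⟩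
    · rw [mem_filter]
      exact ⟨mem_univ _, h⟩
    · rw [mem_filter]
      intro h2
      exact lt_irrefl _ h2.2
  · intro s hs
    rw [mem_filter] at hs ⊢
    exact ⟨hs.1, lt_trans hs.2 h⟩

theorem lt_of_rank {α β : G.A} (h : rank G α < rank G β) : α < β := by
  rcases lt_trichotomy α β with h1 | h1 | h1
  · exact h1
  · rw [h1] at h
    exact absurd h (lt_irrefl _)
  · exact absurd (rank_lt h1) (lt_asymm h)

theorem eq_of_rank {α β : G.A} (h : rank G α = rank G β) : α = β := by
  rcases lt_trichotomy α β with h1 | h1 | h1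
  · exact absurd h (rank_lt h1).ne
  · exact h1
  · exact absurd h (rank_lt h1).ne'

theorem yy_mono {x : TT G} {α : G.A} {i j : Fin G.M} (h : i < j) :
    yy G x (α, i) < yy G x (α, j) := by
  have h1 : ((i : ℕ) : ℤ) < ((j : ℕ) : ℤ) := by exact_mod_cast h
  unfold yy
  split_ifs
  · exact G.mono0 _ _ _ h1
  · exact G.mono0 _ _ _ (by linarith)
  · exact G.mono _ _ _ _ h1

theorem TT_lt {x x' : TT G} (h : x < x') : (ofLex x.1).1 < (ofLex x'.1).1 ∨
    ((ofLex x.1).1 = (ofLex x'.1).1 ∧ (ofLex x.1).2 < (ofLex x'.1).2) := by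
  have h1 : x.1 < x'.1 := h
  rw [Prod.Lex.lt_iff] at h1
  exact h1

theorem yy_cross {x x' : TT G} (hx : x < x') {α β : G.A} (hα : α < β) {i j : Fin G.M}
    (h : yy G x (α, i) ≤ yy G x (β, j)) : yy G x' (α, i) < yy G x' (β, j) := by
  have h1 := TT_lt hx
  obtain ⟨hx1, hx2, hx3⟩ := x.2
  obtain ⟨hy1, hy2, hy3⟩ := x'.2
  unfold yy at h ⊢
  by_cases h2 : (ofLex x.1).1 = 0
  · rw [if_pos h2, if_pos h2] at h
    have h3 := G.inj0_ne hα.ne h
    by_cases h4 : (ofLex x'.1).1 = 0
    · exfalso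
      rcases h1 with h1 | h1
      · omega
      · have h5 := h1.2
        rw [hx1 h2, hy1 h4] at h5
        exact lt_irrefl _ h5
    · rw [if_neg h4, if_neg h4]
      by_cases h5 : (ofLex x'.1).1 = 2
      · rw [if_pos h5, if_pos h5]
        exact G.c1 _ _ hα _ _ G.tt (G.c0 _ _ hα _ _ _ h3).le
      · rw [if_neg h5, if_neg h5]
        exact G.c0 _ _ hα _ _ _ h3
  · rw [if_neg h2, if_neg h2] at h
    have h4 : ¬ (ofLex x'.1).1 = 0 := by
      rcases h1 with h1 | h1 <;> omega
    rw [if_neg h4, if_neg h4]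
    by_cases h5 : (ofLex x.1).1 = 2
    · exfalso
      rcases h1 with h1 | h1
      · omega
      · have h6 := h1.2
        rw [hx2 h5, hy2 (by omega)] at h6
        exact lt_irrefl _ h6
    · rw [if_neg h5, if_neg h5] at h
      by_cases h6 : (ofLex x'.1).1 = 2
      · rw [if_pos h6, if_pos h6]
        exact G.c1 _ _ hα _ _ _ h
      · rw [if_neg h6, if_neg h6]
        refine G.cT _ _ hα _ _ _ _ ?_ h
        rcases h1 with h1 | h1
        · omega
        · exact h1.2

variable (G)

/-- times of the row -/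
def tEmb : G.T ↪ TT G :=
  ⟨fun t => ⟨toLex (1, t), by simp⟩, fun t t' h => by
    have h1 := congrArg Subtype.val h
    simp only [toLex_inj, Prod.mk.injEq, true_and] at h1
    exact h1⟩

/-- index -/
def idx (z : ℤ) : Fin G.M := ⟨z.toNat % G.M, Nat.mod_lt _ G.hM⟩

variable {G}

theorem tEmb_apply (t : G.T) (w : G.A × Fin G.M) : yy G (tEmb G t) w = G.y t w.1 (w.2 : ℕ) := by
  unfold yy
  have h1 : (ofLex (tEmb G t).1).1 = 1 := rfl
  rw [if_neg (by omega), if_neg (by omega)]
  rfl

theorem idx_val {z : ℤ} (h : z / (G.M : ℤ) = 0) : (((idx G z : Fin G.M) : ℕ) : ℤ) = z := by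
  have hM : (0 : ℤ) < G.M := by exact_mod_cast G.hM
  have h1 := Int.lt_ediv_add_one_mul_self z hM
  have h2 := Int.ediv_mul_le z hM.ne'
  rw [h] at h1 h2
  unfold idx
  simp only
  rw [Nat.mod_eq_of_lt (by omega)]
  omega

variable (G)

/-- One row of a flow. -/
def Flow.bas : Bas where
  W := G.A × Fin G.M
  T := TT G
  A := G.Y
  y := yy G
  sl := fun w => rank G w.1
  E := (G.U 0).map (tEmb G)
  lo := fun x => ((G.lo (ofLex x.1).2).1, idx G (G.lo (ofLex x.1).2).2)
  up := fun x => ((G.up (ofLex x.1).2).1, idx G (G.up (ofLex x.1).2).2)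
  K := G.K
  t0 := ⟨toLex (0, G.tt), by simp⟩
  t1 := ⟨toLex (2, G.tt), by simp⟩
  ht0 := by
    intro x
    change toLex (0, G.tt) ≤ x.1
    rw [Prod.Lex.le_iff]
    simp only [ofLex_toLex]
    rcases Nat.eq_zero_or_pos (ofLex x.1).1 with h | h
    · right
      exact ⟨h.symm, (x.2.1 h).ge⟩
    · exact Or.inl h
  ht1 := by
    intro x
    change x.1 ≤ toLex (2, G.tt)
    rw [Prod.Lex.le_iff]
    simp only [ofLex_toLex]
    rcases lt_or_eq_of_le x.2.2.2 with h | h
    · exact Or.inl h
    · right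
      exact ⟨h, (x.2.2.1 h).le⟩
  inj0 := by
    intro i j h
    unfold yy at h
    simp only [ofLex_toLex, if_true] at h
    obtain ⟨h1, h2⟩ := G.inj0' h
    refine Prod.ext h1 (Fin.ext ?_)
    exact_mod_cast h2
  cross := by
    intro i j h x x' hx hle
    exact yy_cross hx (lt_of_rank h) hle
  par := by
    intro i j hne h x x' hlt
    obtain ⟨α, i⟩ := i
    obtain ⟨β, j⟩ := j
    have h1 : α = β := eq_of_rank h
    subst h1
    rcases lt_trichotomy i j with h2 | h2 | h2
    · exact yy_mono h2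
    · rw [h2] at hne
      exact absurd rfl hne
    · exact absurd (yy_mono h2) (lt_asymm hlt)
  parne := by
    intro i j hne h x heq
    obtain ⟨α, i⟩ := i
    obtain ⟨β, j⟩ := j
    have h1 : α = β := eq_of_rank h
    subst h1
    rcases lt_trichotomy i j with h2 | h2 | h2
    · exact absurd heq (yy_mono h2).ne
    · rw [h2] at hne
      exact absurd rfl hne
    · exact absurd heq (yy_mono h2).ne'
  tie := by
    intro x hx w h
    rw [mem_map] at hx
    obtain ⟨t, ht, rfl⟩ := hx
    have hx2 : (ofLex (tEmb G t).1).2 = t := rfl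
    rw [hx2] at h ⊢
    rw [tEmb_apply, tEmb_apply] at h
    simp only [idx_val (G.rlo _ _ ht)] at h
    rcases G.tie _ _ ht _ _ h with h1 | h1
    · left
      have h5 : w.1 = (G.lo t).1 := congrArg Prod.fst h1
      refine Prod.ext h5 (Fin.ext ?_)
      have h2 := congrArg Prod.snd h1
      simp only at h2
      rw [← idx_val (G.rlo _ _ ht)] at h2
      exact_mod_cast h2
    · right
      have h5 : w.1 = (G.up t).1 := congrArg Prod.fst h1
      refine Prod.ext h5 (Fin.ext ?_)
      have h2 := congrArg Prod.snd h1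
      simp only at h2
      rw [← idx_val (G.rup _ _ ht)] at h2
      exact_mod_cast h2
  evy := by
    intro x hx
    rw [mem_map] at hx
    obtain ⟨t, ht, rfl⟩ := hx
    have hx2 : (ofLex (tEmb G t).1).2 = t := rfl
    rw [hx2, tEmb_apply, tEmb_apply]
    simp only [idx_val (G.rlo _ _ ht), idx_val (G.rup _ _ ht)]
    exact G.evy _ _ ht
  evs := by
    intro x hx
    rw [mem_map] at hx
    obtain ⟨t, ht, rfl⟩ := hx
    exact rank_lt (G.evs _ _ ht)
  evK := by
    intro x hx
    rw [mem_map] at hx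
    obtain ⟨t, ht, rfl⟩ := hx
    have hx2 : (ofLex (tEmb G t).1).2 = t := rfl
    rw [hx2, ← G.evK _ _ ht]
    refine card_bij (fun w _ => (w.1, ((w.2 : ℕ) : ℤ))) ?_ ?_ ?_
    · intro w hw
      rw [mem_filter, tEmb_apply, tEmb_apply] at hw
      simp only [idx_val (G.rlo _ _ ht)] at hw
      rw [mem_filter, mem_product, mem_Ico]
      refine ⟨⟨mem_univ _, ?_, ?_⟩, hw.2⟩
      · simp
      · have := w.2.2
        simp only [zero_add, one_mul]
        exact_mod_cast this
    · intro w _ w' _ h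
      have h1 := Prod.mk.inj h
      refine Prod.ext h1.1 (Fin.ext ?_)
      exact_mod_cast h1.2
    · intro w hw
      rw [mem_filter, mem_product, mem_Ico] at hw
      obtain ⟨⟨_, h1, h2⟩, h3⟩ := hw
      simp only [zero_mul, zero_add, one_mul] at h1 h2
      have h4 : w.2 / (G.M : ℤ) = 0 := Int.ediv_eq_zero_of_lt h1 h2
      refine ⟨(w.1, idx G w.2), ?_, ?_⟩
      · rw [mem_filter, tEmb_apply, tEmb_apply]
        simp only [idx_val (G.rlo _ _ ht), idx_val h4]
        exact ⟨mem_univ _, h3⟩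
      · simp only [idx_val h4]

theorem bas_card : Fintype.card G.bas.W = Fintype.card G.A * G.M := by
  have h1 : Fintype.card G.bas.W = Fintype.card (G.A × Fin G.M) := rfl
  rw [h1, Fintype.card_prod, Fintype.card_fin]

theorem bas_E : G.bas.E.card = G.m := by
  have h1 : G.bas.E.card = ((G.U 0).map (tEmb G)).card := rfl
  rw [h1, card_map, G.Ucard]

end

end Pool.Agent.PPoly
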