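import Pool.Agent.PPoly.Step4
import Pool.Agent.PPoly.ToBas
import Mathlib.Analysis.SpecialFunctions.Pow.Real

/-!
# Iterated steps and the bound
-/

namespace Pool.Agent.PPoly

open Finset
open Pool.Agent.PLevel (Sweep)

theorem base_bd : ∀ l : Fin base.n, |((l : ℕ) : ℤ) - 4| ≤ 4 := by
  intro l
  have h1 : (l : ℕ) < 9 := l.2
  rw [abs_le]
  constructor <;> omega

/-- iterated steps -/
def gen : ℕ → Flow
  | 0 => base.flow base_bd
  | j + 1 => Flow.step base (gen j) 1200 (by norm_num)

/-- number of pseudolines of a row -/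
def nn (j : ℕ) : ℕ := Fintype.card (gen j).A * (gen j).M

theorem base_E : base.E.card = 12 := by decide +kernel

theorem nn_eq (j : ℕ) : nn j = 9 * 10800 ^ j := by
  induction j with
  | zero =>
    have h1 : Fintype.card (gen 0).A = 9 := Fintype.card_fin 9
    have h2 : (gen 0).M = 1 := rfl
    unfold nn
    rw [h1, h2]
    norm_num
  | succ j ih =>
    have h1 : Fintype.card (gen (j + 1)).A = 9 * Fintype.card (gen j).A :=
      Flow.step_A base (gen j) 1200 (by norm_num)
    have h2 : (gen (j + 1)).M = (gen j).M * 1200 := rfl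
    unfold nn at ih ⊢
    rw [h1, h2, pow_succ]
    calc 9 * Fintype.card (gen j).A * ((gen j).M * 1200)
        = 10800 * (Fintype.card (gen j).A * (gen j).M) := by ring
      _ = 9 * (10800 ^ j * 10800) := by rw [ih]; ring

theorem mm_eq (j : ℕ) : (gen j).m = 12 * 13968 ^ j := by
  induction j with
  | zero =>
    have h1 : (gen 0).m = base.E.card := rfl
    rw [h1, base_E]
    norm_num
  | succ j ih =>
    have h1 : (gen (j + 1)).m = base.E.card * ((1200 - 36) * (gen j).m) := rfl
    rw [h1, ih, base_E, pow_succ]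
    ring

theorem K_lt (j : ℕ) : (gen j).K < nn j := by
  have hm : 0 < ((gen j).U 0).card := by
    rw [(gen j).Ucard, mm_eq]
    positivity
  obtain ⟨t, ht⟩ := card_pos.1 hm
  have hK := (gen j).evK _ _ ht
  have hM : (0 : ℤ) < (gen j).M := by exact_mod_cast (gen j).hM
  have hcard : ((univ : Finset (gen j).A) ×ˢ
      Ico (0 * ((gen j).M : ℤ)) ((0 + 1) * ((gen j).M : ℤ))).card = nn j := by
    rw [card_product, card_univ, Int.card_Ico]
    unfold nn
    congr 1
    simp
  rw [← hK, ← hcard]
  refine card_lt_card ?_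
  rw [ssubset_iff_of_subset (filter_subset _ _)]
  refine ⟨(gen j).lo t, ?_, ?_⟩
  · rw [mem_product, mem_Ico]
    have h1 := (gen j).rlo _ _ ht
    refine ⟨mem_univ _, ?_, ?_⟩
    · have := Int.ediv_mul_le ((gen j).lo t).2 hM.ne'
      rw [h1] at this
      exact this
    · have := Int.lt_ediv_add_one_mul_self ((gen j).lo t).2 hM
      rw [h1] at this
      exact this
  · rw [mem_filter]
    intro h2
    exact lt_irrefl _ h2.2

/-- a flow of two pseudolines -/
theorem two_bd : ∀ l : Fin two.n, |((l : ℕ) : ℤ) - 4| ≤ 4 := by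
  intro l
  have h1 : (l : ℕ) < 2 := l.2
  rw [abs_le]
  constructor <;> omega

/-- Many letters `k` when the level is in the lower half. -/
theorem low_half {n k : ℕ} (hn : 2 ≤ n) (hk : 2 * k + 1 ≤ n) :
    ∃ w, Sweep n 1 w Fin.revPerm ∧
      (n : ℝ) * ((k : ℝ) + 1) ^ ((37 : ℝ)⁻¹) / 10 ≤ w.count k := by
  by_cases hsmall : k + 1 < 9
  · -- small levels
    set G := (two.flow two_bd).bas with hG
    have hW : Fintype.card G.W = 2 := by
      rw [hG, bas_card]
      rfl
    have hE : G.E.card = 1 := by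
      rw [hG, bas_E]
      rfl
    have hr : n = ((n - k) / 2) * Fintype.card G.W + (k + (n - k) % 2) := by
      rw [hW]
      omega
    obtain ⟨w, hw, hc⟩ := Bas.assemble G hr
    refine ⟨w, hw, ?_⟩
    have h3 : k + G.K = k := rfl
    rw [hE, h3, mul_one] at hc
    have h5 : (n : ℝ) ≤ 8 * w.count k := by
      have : n ≤ 8 * w.count k := by omega
      exact_mod_cast this
    have h6 : ((k : ℝ) + 1) ^ ((37 : ℝ)⁻¹) ≤ 5 / 4 := by
      have h7 : (k : ℝ) + 1 ≤ (5 / 4) ^ 37 := by
        have h8 : (k : ℝ) + 1 ≤ 9 := by exact_mod_cast hsmall.le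
        refine h8.trans ?_
        norm_num
      have h8 := Real.rpow_le_rpow (by positivity) h7 (show (0 : ℝ) ≤ (37 : ℝ)⁻¹ by norm_num)
      refine h8.trans ?_
      have h9 := Real.pow_rpow_inv_natCast (show (0 : ℝ) ≤ 5 / 4 by norm_num)
        (show (37 : ℕ) ≠ 0 by norm_num)
      push_cast at h9
      exact h9.le
    have h7 : (n : ℝ) * ((k : ℝ) + 1) ^ ((37 : ℝ)⁻¹) ≤ 8 * w.count k * (5 / 4) :=
      mul_le_mul h5 h6 (by positivity) (by positivity)
    linarith
  · -- large levels
    push Not at hsmall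
    have hgt : ∀ j, j < nn j := by
      intro j
      rw [nn_eq]
      have h1 : j < 10800 ^ j := Nat.lt_pow_self (by norm_num)
      omega
    have hex : ∃ j, nn j ≤ k + 1 ∧ k + 1 < nn (j + 1) := by
      by_contra hno
      push Not at hno
      have : ∀ j, nn j ≤ k + 1 := by
        intro j
        induction j with
        | zero =>
          rw [nn_eq]
          simpa using hsmall
        | succ j ih => exact hno j ih
      have h1 := this (k + 1)
      have h2 := hgt (k + 1)
      omega
    obtain ⟨j, hj1, hj2⟩ := hex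
    have hK := K_lt j
    have hN0 : 0 < nn j := by
      rw [nn_eq]
      positivity
    set N := nn j with hN
    set p := k - (gen j).K with hp
    set r := (n - p) / N with hrdef
    have hr1 : r * N + (n - p) % N = n - p := by
      rw [hrdef, mul_comm]
      exact Nat.div_add_mod (n - p) N
    have hmod : (n - p) % N < N := Nat.mod_lt _ hN0
    have hr : n = r * Fintype.card (gen j).bas.W + (p + (n - p) % N) := by
      have h1 : Fintype.card (gen j).bas.W = N := bas_card _
      rw [h1]
      omega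
    obtain ⟨w, hw, hc⟩ := Bas.assemble (gen j).bas hr
    refine ⟨w, hw, ?_⟩
    have h3 : p + (gen j).bas.K = k := by
      have h4 : (gen j).bas.K = (gen j).K := rfl
      rw [h4]
      omega
    rw [bas_E, h3] at hc
    have hr4 : n ≤ 4 * (r * N) := by
      have h4 : 1 ≤ r := by
        rw [hrdef]
        exact (Nat.one_le_div_iff hN0).2 (by omega)
      have h5 : N ≤ r * N := Nat.le_mul_of_pos_left _ h4
      omega
    have h5 : (n : ℝ) * (97 / 75) ^ j ≤ 3 * w.count k := by
      have h6 : (n : ℝ) ≤ 4 * (r * N) := by exact_mod_cast hr4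
      have h7 : (N : ℝ) = 9 * 10800 ^ j := by
        rw [hN, nn_eq]
        push_cast
        rfl
      have h8 : (r : ℝ) * (12 * 13968 ^ j) ≤ w.count k := by
        rw [mm_eq] at hc
        exact_mod_cast hc
      have h9 : ((13968 : ℝ)) ^ j = 10800 ^ j * (97 / 75) ^ j := by
        rw [← mul_pow]
        norm_num
      rw [h9] at h8
      rw [h7] at h6
      have h10 : (0 : ℝ) ≤ (97 / 75) ^ j := by positivity
      calc (n : ℝ) * (97 / 75) ^ j ≤ 4 * (r * (9 * 10800 ^ j)) * (97 / 75) ^ j :=
            mul_le_mul_of_nonneg_right h6 h10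
        _ = 3 * (r * (12 * (10800 ^ j * (97 / 75) ^ j))) := by ring
        _ ≤ 3 * w.count k := by linarith
    have h6 : ((k : ℝ) + 1) ^ ((37 : ℝ)⁻¹) ≤ 2 * (97 / 75) ^ j := by
      have h7 : (k : ℝ) + 1 ≤ (2 * (97 / 75) ^ j) ^ 37 := by
        have h8 : k + 1 ≤ 9 * 10800 ^ (j + 1) := by
          rw [← nn_eq]
          exact hj2.le
        have h9 : (k : ℝ) + 1 ≤ 9 * 10800 ^ (j + 1) := by exact_mod_cast h8
        refine h9.trans ?_
        have h10 : (10800 : ℝ) ≤ (97 / 75) ^ 37 := by norm_num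
        have h11 : (10800 : ℝ) ^ j ≤ ((97 / 75) ^ 37) ^ j :=
          pow_le_pow_left₀ (by norm_num) h10 j
        have h12 : (9 : ℝ) * 10800 ≤ 2 ^ 37 := by norm_num
        calc (9 : ℝ) * 10800 ^ (j + 1) = 9 * 10800 * 10800 ^ j := by
              rw [pow_succ]
              ring
          _ ≤ 2 ^ 37 * ((97 / 75) ^ 37) ^ j :=
              mul_le_mul h12 h11 (by positivity) (by positivity)
          _ = (2 * (97 / 75) ^ j) ^ 37 := by
              rw [mul_pow, ← pow_mul, ← pow_mul, mul_comm 37 j]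
      have h8 := Real.rpow_le_rpow (by positivity) h7 (show (0 : ℝ) ≤ (37 : ℝ)⁻¹ by norm_num)
      refine h8.trans ?_
      have h9 := Real.pow_rpow_inv_natCast (show (0 : ℝ) ≤ 2 * (97 / 75) ^ j by positivity)
        (show (37 : ℕ) ≠ 0 by norm_num)
      push_cast at h9
      exact h9.le
    have hn0 : (0 : ℝ) ≤ n := Nat.cast_nonneg n
    have h7 : (n : ℝ) * ((k : ℝ) + 1) ^ ((37 : ℝ)⁻¹) ≤ n * (2 * (97 / 75) ^ j) :=
      mul_le_mul_of_nonneg_left h6 hn0
    have h8 : (0 : ℝ) ≤ w.count k := Nat.cast_nonneg _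
    linarith

end Pool.Agent.PPoly
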