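import Mathlib.Data.Finset.Card
import Mathlib.Data.Finset.Sort
import Mathlib.Data.Fintype.Prod
import Mathlib.Data.Fintype.BigOperators
import Mathlib.Data.Prod.Lex
import Mathlib.Data.Fin.VecNotation
import Mathlib.Algebra.BigOperators.Fin
import Mathlib.Algebra.BigOperators.Ring.Finset
import Mathlib.Tactic.Ring
import Mathlib.Tactic.Linarith
import Mathlib.Tactic.Positivity

/-!
# Small arrangements

`n ≤ 9` pseudolines; the pseudoline `i` has slope `i`, so any two pseudolines cross exactly once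
and the one with the larger index is below at the beginning and above at the end. At the times in
`E` exactly two pseudolines `lo t < up t` meet and exactly `K` pseudolines are strictly below them.
-/

namespace Pool.Agent.PPoly

open Finset

structure Small : Type 1 where
  n : ℕ
  T : Type
  [oT : LinearOrder T]
  y : T → Fin n → ℕ
  E : Finset T
  lo : T → Fin n
  up : T → Fin n
  K : ℕ
  t0 : T
  t1 : T
  hn : n ≤ 9
  ht0 : ∀ t, t0 ≤ t
  ht1 : ∀ t, t ≤ t1
  h0E : t0 ∉ E
  h1E : t1 ∉ E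
  cross : ∀ i j, i < j → ∀ t t', t < t' → y t i ≤ y t j → y t' i < y t' j
  tie : ∀ t i j, i < j → y t i = y t j → t ∈ E ∧ i = lo t ∧ j = up t
  evy : ∀ t ∈ E, y t (lo t) = y t (up t)
  evs : ∀ t ∈ E, lo t < up t
  evK : ∀ t ∈ E, (Finset.univ.filter (fun i => y t i < y t (lo t))).card = K
  vis : ∀ w, (E.filter (fun t => lo t = w)).card ≤ 2

attribute [instance] Small.oT

namespace Small

variable (R : Small)

/-- number of events before `t` at which `l` is the lower pseudoline -/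
def col (l : Fin R.n) (t : R.T) : ℕ := (R.E.filter (fun t' => t' < t ∧ R.lo t' = l)).card

theorem col_le (l : Fin R.n) (t : R.T) : R.col l t ≤ 2 := by
  refine le_trans (card_le_card ?_) (R.vis l)
  intro s hs
  rw [mem_filter] at hs ⊢
  exact ⟨hs.1, hs.2.2⟩

theorem col_mono (l : Fin R.n) {t t' : R.T} (h : t ≤ t') : R.col l t ≤ R.col l t' := by
  refine card_le_card ?_
  intro s hs
  rw [mem_filter] at hs ⊢
  exact ⟨hs.1, lt_of_lt_of_le hs.2.1 h, hs.2.2⟩

theorem col_lt {t t' : R.T} (h : t < t') (ht : t ∈ R.E) :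
    R.col (R.lo t) t + 1 ≤ R.col (R.lo t) t' := by
  refine Nat.succ_le_of_lt (card_lt_card ?_)
  rw [ssubset_iff_of_subset]
  · refine ⟨t, ?_, ?_⟩
    · rw [mem_filter]
      exact ⟨ht, h, rfl⟩
    · rw [mem_filter]
      intro h2
      exact lt_irrefl _ h2.2.1
  · intro s hs
    rw [mem_filter] at hs ⊢
    exact ⟨hs.1, lt_trans hs.2.1 h, hs.2.2⟩

theorem col_t0 (l : Fin R.n) : R.col l R.t0 = 0 := by
  unfold col
  rw [card_eq_zero, filter_eq_empty_iff]
  intro s _ h
  exact absurd h.1 (not_lt.2 (R.ht0 s))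

theorem lo_ne_up {t : R.T} (ht : t ∈ R.E) : R.lo t ≠ R.up t := ne_of_lt (R.evs t ht)

theorem inj_of {t : R.T} (ht : t ∉ R.E) {i j : Fin R.n} (h : R.y t i = R.y t j) : i = j := by
  rcases lt_trichotomy i j with h1 | h1 | h1
  · exact absurd (R.tie t i j h1 h).1 ht
  · exact h1
  · exact absurd (R.tie t j i h1 h.symm).1 ht

/-- only the upper pseudoline meets the lower one at an event -/
theorem eq_lo {t : R.T} {i : Fin R.n} (h : R.y t i = R.y t (R.lo t)) :
    i = R.lo t ∨ (t ∈ R.E ∧ i = R.up t) := by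
  rcases lt_trichotomy i (R.lo t) with h1 | h1 | h1
  · obtain ⟨h2, h3, h4⟩ := R.tie t i _ h1 h
    exact Or.inl h3
  · exact Or.inl h1
  · obtain ⟨h2, h3, h4⟩ := R.tie t _ i h1 h.symm
    exact Or.inr ⟨h2, h4⟩

end Small

/-- heights of nine pseudolines at fourteen times -/
def baseY : Fin 14 → Fin 9 → ℕ :=
  ![![8, 7, 6, 5, 4, 3, 2, 1, 0],
    ![8, 7, 5, 6, 3, 3, 2, 1, 0],
    ![8, 7, 3, 6, 3, 5, 2, 1, 0],
    ![8, 7, 2, 6, 3, 5, 3, 1, 0],
    ![8, 7, 1, 6, 2, 5, 3, 3, 0],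
    ![8, 7, 0, 6, 1, 5, 2, 3, 3],
    ![8, 7, 0, 6, 1, 3, 2, 3, 5],
    ![8, 7, 0, 3, 1, 3, 2, 5, 6],
    ![6, 5, 0, 2, 1, 3, 3, 7, 8],
    ![5, 3, 0, 2, 1, 3, 6, 7, 8],
    ![3, 3, 0, 2, 1, 5, 6, 7, 8],
    ![2, 3, 0, 3, 1, 5, 6, 7, 8],
    ![0, 2, 1, 3, 3, 5, 6, 7, 8],
    ![0, 1, 2, 3, 4, 5, 6, 7, 8]]

/-- Nine pseudolines with twelve crossings at level three. -/
def base : Small where
  n := 9
  T := Fin 14
  y := baseY
  E := univ.filter (fun t : Fin 14 => 0 < t.1 ∧ t.1 < 13)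
  lo := ![0, 4, 2, 4, 6, 7, 5, 3, 5, 1, 0, 1, 3, 0]
  up := ![0, 5, 4, 6, 7, 8, 7, 5, 6, 5, 1, 3, 4, 0]
  K := 3
  t0 := 0
  t1 := 13
  hn := le_rfl
  ht0 := fun t => Fin.zero_le t
  ht1 := fun t => Fin.le_last t
  h0E := by decide +kernel
  h1E := by decide +kernel
  cross := by decide +kernel
  tie := by decide +kernel
  evy := by decide +kernel
  evs := by decide +kernel
  evK := by decide +kernel
  vis := by decide +kernel

/-- Two pseudolines. -/
def two : Small where
  n := 2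
  T := Fin 3
  y := ![![1, 0], ![0, 0], ![0, 1]]
  E := {1}
  lo := ![0, 0, 0]
  up := ![1, 1, 1]
  K := 0
  t0 := 0
  t1 := 2
  hn := by norm_num
  ht0 := fun t => Fin.zero_le t
  ht1 := fun t => Fin.le_last t
  h0E := by decide +kernel
  h1E := by decide +kernel
  cross := by decide +kernel
  tie := by decide +kernel
  evy := by decide +kernel
  evs := by decide +kernel
  evK := by decide +kernel
  vis := by decide +kernel

end Pool.Agent.PPoly
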