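import Pool.Agent.PPoly.Flow

/-!
# The step: blocks of pseudolines play a small arrangement

A row of length `M L` of the new flow consists of `R.n` blocks; the blocks play the small
arrangement `R`, and at an event the lower block is scanned: it performs a column of the flow `G`
while the pseudolines of the upper block stay just above the current row of the lower block or
below the whole lower block.
-/

namespace Pool.Agent.PPoly

open Finset

section step

variable (R : Small) (G : Flow) (L : ℕ)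

abbrev SA : Type := Fin R.n ×ₗ G.A
abbrev ST : Type := ℤ ×ₗ (R.T ×ₗ G.T)
abbrev IY : Type := (ℤ ×ₗ ℤ) ×ₗ G.Y
abbrev SY : Type := ℤ ×ₗ (ℕ ×ₗ IY G)

/-- row length -/
def MM : ℕ := G.M * L

/-- unit of the displacement -/
def La : ℤ := G.M * (2 * L + 36)

/-- current place of a pseudoline of the block `l` -/
def cur (l : Fin R.n) (t : R.T) (α : G.A) (b : ℤ) : ℤ := b + (R.col l t : ℤ) * G.E α

/-- the pseudolines of a row of a block -/
def blk (x : ℤ) : Finset (G.A × ℤ) :=
  (univ : Finset G.A) ×ˢ Ico (x * (MM G L : ℤ)) ((x + 1) * (MM G L : ℤ))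

/-- number of pseudolines of the lower block in lower rows than the current one -/
def rr (x : ℤ) (t : R.T) (s : G.T) : ℕ :=
  ((blk G L x).filter (fun w => cur R G (R.lo t) t w.1 w.2 / (G.M : ℤ) < G.row s)).card

/-- rank from above in the upper block -/
def rk (x : ℤ) (t : R.T) (α : G.A) (b : ℤ) : ℕ :=
  ((blk G L x).filter (fun w =>
    G.y0 α (cur R G (R.up t) t α b) < G.y0 w.1 (cur R G (R.up t) t w.1 w.2))).card

/-- height inside the blocks -/
def inn (x : ℤ) (t : R.T) (s : G.T) (l : Fin R.n) (α : G.A) (b : ℤ) : IY G :=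
  if t ∈ R.E ∧ l = R.lo t then
    toLex (toLex (1, 2 * (cur R G l t α b / (G.M : ℤ))), G.y s α (cur R G l t α b))
  else if t ∈ R.E ∧ l = R.up t ∧ rk R G L x t α b < rr R G L x t s then
    toLex (toLex (1, 2 * G.row s + 1), G.y0 α (cur R G l t α b))
  else toLex (toLex (0, 0), G.y0 α (cur R G l t α b))

/-- simple inner height -/
def ii (t : R.T) (s : G.T) (l : Fin R.n) (α : G.A) (b : ℤ) : G.Y :=
  if t ∈ R.E ∧ l = R.lo t then G.y s α (cur R G l t α b) else G.y0 α (cur R G l t α b)

/-- height in a row -/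
def stt (x : ℤ) (t : R.T) (s : G.T) (l : Fin R.n) (α : G.A) (b : ℤ) : ℕ ×ₗ IY G :=
  toLex (R.y t l, inn R G L x t s l α b)

variable {R G L}

theorem cur_inj {l : Fin R.n} {t : R.T} {α : G.A} {b b' : ℤ}
    (h : cur R G l t α b = cur R G l t α b') : b = b' := by
  unfold cur at h
  linarith

theorem inn_lo {x : ℤ} {t : R.T} (ht : t ∈ R.E) {s : G.T} {l : Fin R.n} (hl : l = R.lo t)
    {α : G.A} {b : ℤ} : inn R G L x t s l α b
      = toLex (toLex (1, 2 * (cur R G l t α b / (G.M : ℤ))), G.y s α (cur R G l t α b)) := by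
  unfold inn
  rw [if_pos ⟨ht, hl⟩]

theorem inn_not {x : ℤ} {t : R.T} (ht : t ∉ R.E) {s : G.T} {l : Fin R.n}
    {α : G.A} {b : ℤ} : inn R G L x t s l α b
      = toLex (toLex (0, 0), G.y0 α (cur R G l t α b)) := by
  unfold inn
  rw [if_neg (fun h => ht h.1), if_neg (fun h => ht h.1)]

theorem inn_lt_of {x : ℤ} {t : R.T} {s : G.T} {l : Fin R.n} {α α' : G.A} {b b' : ℤ}
    (h : ii R G t s l α b < ii R G t s l α' b') :
    inn R G L x t s l α b < inn R G L x t s l α' b' := by
  unfold ii at h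
  by_cases h1 : t ∈ R.E ∧ l = R.lo t
  · rw [if_pos h1, if_pos h1] at h
    rw [inn_lo h1.1 h1.2, inn_lo h1.1 h1.2, lex_lt, lex_lt]
    rcases lt_trichotomy (cur R G l t α b / (G.M : ℤ)) (cur R G l t α' b' / (G.M : ℤ))
      with h2 | h2 | h2
    · left
      right
      exact ⟨rfl, by linarith⟩
    · right
      rw [h2]
      exact ⟨rfl, h⟩
    · exact absurd (G.rowy s _ _ _ _ h2) (lt_asymm h)
  · rw [if_neg h1, if_neg h1] at h
    unfold inn
    rw [if_neg h1, if_neg h1]
    by_cases h2 : t ∈ R.E ∧ l = R.up t ∧ rk R G L x t α b < rr R G L x t s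
    · have h3 : t ∈ R.E ∧ l = R.up t ∧ rk R G L x t α' b' < rr R G L x t s := by
        refine ⟨h2.1, h2.2.1, lt_of_le_of_lt (card_le_card ?_) h2.2.2⟩
        intro w hw
        rw [mem_filter] at hw ⊢
        refine ⟨hw.1, lt_trans ?_ hw.2⟩
        rw [← h2.2.1]
        exact h
      rw [if_pos h2, if_pos h3, lex_lt]
      exact Or.inr ⟨rfl, h⟩
    · rw [if_neg h2]
      by_cases h3 : t ∈ R.E ∧ l = R.up t ∧ rk R G L x t α' b' < rr R G L x t s
      · rw [if_pos h3, lex_lt, lex_lt]
        exact Or.inl (Or.inl Int.zero_lt_one)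
      · rw [if_neg h3, lex_lt]
        exact Or.inr ⟨rfl, h⟩

theorem inn_eq_of {x : ℤ} {t : R.T} {s : G.T} {l : Fin R.n} {α α' : G.A} {b b' : ℤ}
    (h : ii R G t s l α b = ii R G t s l α' b') :
    inn R G L x t s l α b = inn R G L x t s l α' b' := by
  unfold ii at h
  by_cases h1 : t ∈ R.E ∧ l = R.lo t
  · rw [if_pos h1, if_pos h1] at h
    rw [inn_lo h1.1 h1.2, inn_lo h1.1 h1.2]
    rcases lt_trichotomy (cur R G l t α b / (G.M : ℤ)) (cur R G l t α' b' / (G.M : ℤ))
      with h2 | h2 | h2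
    · exact absurd h (G.rowy s _ _ _ _ h2).ne
    · rw [h2, h]
    · exact absurd h (G.rowy s _ _ _ _ h2).ne'
  · rw [if_neg h1, if_neg h1] at h
    obtain ⟨h2, h3⟩ := G.inj0' h
    subst h2
    rw [cur_inj h3]

theorem inn_lt_iff {x : ℤ} {t : R.T} {s : G.T} {l : Fin R.n} {α α' : G.A} {b b' : ℤ} :
    inn R G L x t s l α b < inn R G L x t s l α' b' ↔ ii R G t s l α b < ii R G t s l α' b' := by
  constructor
  · intro h
    by_contra h2
    rcases lt_or_eq_of_le (not_lt.1 h2) with h3 | h3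
    · exact lt_asymm h (inn_lt_of h3)
    · rw [inn_eq_of h3] at h
      exact lt_irrefl _ h
  · exact inn_lt_of

theorem inn_le_iff {x : ℤ} {t : R.T} {s : G.T} {l : Fin R.n} {α α' : G.A} {b b' : ℤ} :
    inn R G L x t s l α b ≤ inn R G L x t s l α' b' ↔ ii R G t s l α b ≤ ii R G t s l α' b' := by
  rw [← not_lt, inn_lt_iff, not_lt]

/-- the next column -/
def nx (R : Small) (l : Fin R.n) (t : R.T) : ℕ :=
  if t ∈ R.E ∧ l = R.lo t then R.col l t + 1 else R.col l t

theorem nx_le {l : Fin R.n} {t t' : R.T} (h : t < t') : nx R l t ≤ R.col l t' := by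
  unfold nx
  by_cases h1 : t ∈ R.E ∧ l = R.lo t
  · rw [if_pos h1, h1.2]
    exact R.col_lt h h1.1
  · rw [if_neg h1]
    exact R.col_mono l h.le

theorem ii_nx {t : R.T} {s : G.T} {l : Fin R.n} {α α' : G.A} (hα : α < α') {b b' : ℤ}
    (h : ii R G t s l α b ≤ ii R G t s l α' b') :
    G.y0 α (b + (nx R l t : ℤ) * G.E α) < G.y0 α' (b' + (nx R l t : ℤ) * G.E α') := by
  unfold ii at h
  unfold nx
  by_cases h1 : t ∈ R.E ∧ l = R.lo t
  · rw [if_pos h1, if_pos h1] at h
    rw [if_pos h1]
    have h2 := G.c1 _ _ hα _ _ _ h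
    unfold cur at h2
    have e1 : ∀ c e : ℤ, c + ((R.col l t + 1 : ℕ) : ℤ) * e = c + (R.col l t : ℤ) * e + e := by
      intro c e
      push_cast
      ring
    rw [e1, e1]
    exact h2
  · rw [if_neg h1, if_neg h1] at h
    rw [if_neg h1]
    exact G.inj0_ne hα.ne h

theorem ii_of {t : R.T} {s : G.T} {l : Fin R.n} {α α' : G.A} (hα : α < α') {b b' : ℤ}
    (h : G.y0 α (b + (R.col l t : ℤ) * G.E α) < G.y0 α' (b' + (R.col l t : ℤ) * G.E α')) :
    ii R G t s l α b < ii R G t s l α' b' := by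
  unfold ii
  by_cases h1 : t ∈ R.E ∧ l = R.lo t
  · rw [if_pos h1, if_pos h1]
    exact G.c0 _ _ hα _ _ _ h
  · rw [if_neg h1, if_neg h1]
    exact h

theorem rr_mono {x : ℤ} {t : R.T} {s s' : G.T} (h : s ≤ s') :
    rr R G L x t s ≤ rr R G L x t s' := by
  refine card_le_card ?_
  intro w hw
  rw [mem_filter] at hw ⊢
  exact ⟨hw.1, lt_of_lt_of_le hw.2 (G.rmono _ _ h)⟩

/-- comparison of the two blocks at an event -/
theorem ev_iff {x : ℤ} {t : R.T} (ht : t ∈ R.E) {s : G.T} {α α' : G.A} {b b' : ℤ} :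
    (inn R G L x t s (R.lo t) α b ≤ inn R G L x t s (R.up t) α' b' ↔
      rk R G L x t α' b' < rr R G L x t s ∧ cur R G (R.lo t) t α b / (G.M : ℤ) ≤ G.row s) ∧
    (inn R G L x t s (R.lo t) α b < inn R G L x t s (R.up t) α' b' ↔
      rk R G L x t α' b' < rr R G L x t s ∧ cur R G (R.lo t) t α b / (G.M : ℤ) ≤ G.row s) := by
  have hne := R.lo_ne_up ht
  rw [inn_lo ht rfl]
  unfold inn
  rw [if_neg (fun h => hne h.2.symm)]
  by_cases h1 : rk R G L x t α' b' < rr R G L x t s
  · rw [if_pos ⟨ht, rfl, h1⟩]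
    simp only [lex_le, lex_lt, lt_irrefl, true_and, false_or, h1, toLex_inj, Prod.mk.injEq]
    constructor
    · constructor
      · rintro (h | h)
        · omega
        · omega
      · intro h
        left
        omega
    · constructor
      · rintro (h | h)
        · omega
        · omega
      · intro h
        left
        omega
  · rw [if_neg (fun h => h1 h.2.2)]
    simp only [lex_le, lex_lt, h1, false_and, iff_false, toLex_inj, Prod.mk.injEq]
    constructor
    · rintro ((h | h) | h)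
      · omega
      · omega
      · omega
    · rintro ((h | h) | h)
      · omega
      · omega
      · omega

theorem stt_cross {x : ℤ} {t t' : R.T} {s s' : G.T}
    (ht : t < t' ∨ (t = t' ∧ (s < s' ∨ t ∉ R.E))) {l l' : Fin R.n} {α α' : G.A} {b b' : ℤ}
    (hw : l < l' ∨ (l = l' ∧ α < α'))
    (h : stt R G L x t s l α b ≤ stt R G L x t s l' α' b') :
    stt R G L x t' s' l α b < stt R G L x t' s' l' α' b' := by
  unfold stt at h ⊢
  rw [lex_le] at h
  rw [lex_lt]
  rcases hw with hl | ⟨hl, hα⟩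
  · have hy : R.y t l ≤ R.y t l' := by
      rcases h with h | h
      · exact h.le
      · exact h.1.le
    rcases ht with ht | ⟨ht, hs⟩
    · exact Or.inl (R.cross _ _ hl _ _ ht hy)
    · subst ht
      rcases h with h | ⟨h, h2⟩
      · exact Or.inl h
      · right
        refine ⟨h, ?_⟩
        obtain ⟨h3, h4, h5⟩ := R.tie _ _ _ hl h
        have hs' : s < s' := by
          rcases hs with hs | hs
          · exact hs
          · exact absurd h3 hs
        rw [h4, h5] at h2 ⊢
        have h6 := (ev_iff h3).1.1 h2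
        exact (ev_iff h3).2.2 ⟨lt_of_lt_of_le h6.1 (rr_mono hs'.le),
          h6.2.trans (G.rmono _ _ hs'.le)⟩
  · subst hl
    right
    refine ⟨rfl, ?_⟩
    have h2 := (h.resolve_left (lt_irrefl _)).2
    rw [inn_le_iff] at h2
    rw [inn_lt_iff]
    rcases ht with ht | ⟨ht, hs⟩
    · exact ii_of hα (G.chain hα _ _ (nx_le ht) (ii_nx hα h2))
    · subst ht
      unfold ii at h2 ⊢
      by_cases h3 : t ∈ R.E ∧ l = R.lo t
      · rw [if_pos h3, if_pos h3] at h2 ⊢
        have hs' : s < s' := by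
          rcases hs with hs | hs
          · exact hs
          · exact absurd h3.1 hs
        exact G.cT _ _ hα _ _ _ _ hs' h2
      · rw [if_neg h3, if_neg h3] at h2 ⊢
        exact G.inj0_ne hα.ne h2

theorem stt_mono {x : ℤ} {t : R.T} {s : G.T} {l : Fin R.n} {α : G.A} {b b' : ℤ} (h : b < b') :
    stt R G L x t s l α b < stt R G L x t s l α b' := by
  unfold stt
  rw [lex_lt, inn_lt_iff]
  right
  refine ⟨rfl, ?_⟩
  have hc : cur R G l t α b < cur R G l t α b' := by
    unfold cur
    linarith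
  unfold ii
  split_ifs with h1
  · exact G.mono _ _ _ _ hc
  · exact G.mono0 _ _ _ hc

end step

end Pool.Agent.PPoly
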