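import Pool.Agent.PPoly.Step1

/-!
# The step: orders
-/

namespace Pool.Agent.PPoly

open Finset

section step

variable (R : Small) (G : Flow) (L : ℕ)

/-- initial height -/
def hgt0 (w : SA R G) (b : ℤ) : SY G :=
  toLex (b / (MM G L : ℤ), toLex (R.y R.t0 (ofLex w).1, toLex (toLex (0, 0), G.y0 (ofLex w).2 b)))

/-- the small time seen by a row -/
def tm (τ : ST R G) (x : ℤ) : R.T := fr R (ofLex τ).1 (ofLex (ofLex τ).2).1 x

/-- height -/
def hgt (τ : ST R G) (w : SA R G) (b : ℤ) : SY G :=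
  toLex (b / (MM G L : ℤ), stt R G L (b / (MM G L : ℤ)) (tm R G τ (b / (MM G L : ℤ)))
    (ofLex (ofLex τ).2).2 (ofLex w).1 (ofLex w).2 b)

/-- displacement -/
def sE (w : SA R G) : ℤ :=
  (((ofLex w).1 : ℕ) - 4) * La G L + (R.col (ofLex w).1 R.t1 : ℤ) * G.E (ofLex w).2

variable {R G L}

theorem hgt0_eq (w : SA R G) (b : ℤ) (s : G.T) : hgt0 R G L w b
    = toLex (b / (MM G L : ℤ), stt R G L (b / (MM G L : ℤ)) R.t0 s (ofLex w).1 (ofLex w).2 b) := by
  unfold hgt0 stt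
  rw [inn_not R.h0E]
  unfold cur
  rw [R.col_t0]
  simp

theorem edl {a b c : ℤ} (hc : 0 ≤ c) (h : a ≤ b) : a / c ≤ b / c := by
  rcases lt_or_eq_of_le hc with h1 | h1
  · exact Int.ediv_le_ediv h1 h
  · rw [← h1]
    simp

theorem div_div (b : ℤ) : b / (MM G L : ℤ) = b / (G.M : ℤ) / (L : ℤ) := by
  unfold MM
  push_cast
  rw [Int.ediv_ediv_of_nonneg (by positivity)]

theorem nest_lt {b b' : ℤ} (h : b / (MM G L : ℤ) < b' / (MM G L : ℤ)) :
    b / (G.M : ℤ) < b' / (G.M : ℤ) := by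
  rw [div_div, div_div] at h
  by_contra h2
  exact absurd h (not_lt.2 (edl (by positivity) (not_lt.1 h2)))

theorem y0_of_row {α α' : G.A} {b b' : ℤ} (h : b / (MM G L : ℤ) < b' / (MM G L : ℤ)) :
    G.y0 α b < G.y0 α' b' := G.row0 _ _ _ _ (nest_lt h)

theorem row_of_y0 {α α' : G.A} {b b' : ℤ} (h : G.y0 α b < G.y0 α' b') :
    b / (MM G L : ℤ) ≤ b' / (MM G L : ℤ) := by
  by_contra h2
  exact lt_asymm h (y0_of_row (not_le.1 h2))

theorem sa_lt {w w' : SA R G} : w < w' ↔ (ofLex w).1 < (ofLex w').1 ∨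
    ((ofLex w).1 = (ofLex w').1 ∧ (ofLex w).2 < (ofLex w').2) := Prod.Lex.lt_iff

theorem sa_ext {w w' : SA R G} (h1 : (ofLex w).1 = (ofLex w').1)
    (h2 : (ofLex w).2 = (ofLex w').2) : w = w' := by
  have h3 : ofLex w = ofLex w' := Prod.ext h1 h2
  exact ofLex_inj.1 h3

theorem st_lt {τ τ' : ST R G} : τ < τ' ↔ (ofLex τ).1 < (ofLex τ').1 ∨
    ((ofLex τ).1 = (ofLex τ').1 ∧ ((ofLex (ofLex τ).2).1 < (ofLex (ofLex τ').2).1 ∨
      ((ofLex (ofLex τ).2).1 = (ofLex (ofLex τ').2).1 ∧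
        (ofLex (ofLex τ).2).2 < (ofLex (ofLex τ').2).2))) := by
  rw [Prod.Lex.lt_iff, Prod.Lex.lt_iff]

theorem tm_lt {τ τ' : ST R G} (h : τ < τ') (x : ℤ) : tm R G τ x < tm R G τ' x ∨
    (tm R G τ x = tm R G τ' x ∧ ((ofLex (ofLex τ).2).2 < (ofLex (ofLex τ').2).2 ∨
      tm R G τ x ∉ R.E)) := by
  rw [st_lt] at h
  have h1 : tm R G τ x ≤ tm R G τ' x := by
    apply fr_mono
    rcases h with h | ⟨h, h2 | h2⟩
    · exact Or.inl h
    · exact Or.inr ⟨h, h2.le⟩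
    · exact Or.inr ⟨h, h2.1.le⟩
  rcases lt_or_eq_of_le h1 with h2 | h2
  · exact Or.inl h2
  · right
    refine ⟨h2, ?_⟩
    by_cases h3 : tm R G τ x ∈ R.E
    · left
      have h4 := fr_mem R h3
      rw [h2] at h3
      have h5 := fr_mem R h3
      rcases h with h | ⟨h, h6 | h6⟩
      · omega
      · unfold tm at h2
        rw [h4.2, h5.2] at h2
        rw [h2] at h6
        exact absurd h6 (lt_irrefl _)
      · exact h6.2
    · exact Or.inr h3

theorem s_mono0 (w : SA R G) (b b' : ℤ) (h : b < b') : hgt0 R G L w b < hgt0 R G L w b' := by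
  unfold hgt0
  rw [lex_lt]
  have h1 : b / (MM G L : ℤ) ≤ b' / (MM G L : ℤ) := edl (by positivity) h.le
  rcases lt_or_eq_of_le h1 with h2 | h2
  · exact Or.inl h2
  · right
    refine ⟨h2, ?_⟩
    rw [lex_lt, lex_lt]
    exact Or.inr ⟨rfl, Or.inr ⟨rfl, G.mono0 _ _ _ h⟩⟩

theorem s_mono (τ : ST R G) (w : SA R G) (b b' : ℤ) (h : b < b') :
    hgt R G L τ w b < hgt R G L τ w b' := by
  unfold hgt
  rw [lex_lt]
  have h1 : b / (MM G L : ℤ) ≤ b' / (MM G L : ℤ) := edl (by positivity) h.le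
  rcases lt_or_eq_of_le h1 with h2 | h2
  · exact Or.inl h2
  · right
    rw [h2]
    exact ⟨rfl, stt_mono h⟩

theorem s_row0 (w w' : SA R G) (b b' : ℤ) (h : b / (MM G L : ℤ) < b' / (MM G L : ℤ)) :
    hgt0 R G L w b < hgt0 R G L w' b' := by
  unfold hgt0
  rw [lex_lt]
  exact Or.inl h

theorem s_rowy (τ : ST R G) (w w' : SA R G) (b b' : ℤ)
    (h : b / (MM G L : ℤ) < b' / (MM G L : ℤ)) : hgt R G L τ w b < hgt R G L τ w' b' := by
  unfold hgt
  rw [lex_lt]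
  exact Or.inl h

theorem s_shift0 (hL : 0 < L) (w w' : SA R G) (b b' z : ℤ)
    (h : hgt0 R G L w b < hgt0 R G L w' b') :
    hgt0 R G L w (b + (MM G L : ℕ) * z) < hgt0 R G L w' (b' + (MM G L : ℕ) * z) := by
  have hM : ((MM G L : ℕ) : ℤ) ≠ 0 := by
    unfold MM
    have := G.hM
    positivity
  unfold hgt0 at h ⊢
  rw [lex_lt, lex_lt, lex_lt] at h ⊢
  rw [Int.add_mul_ediv_left _ _ hM, Int.add_mul_ediv_left _ _ hM]
  rcases h with h | ⟨h1, h | ⟨h2, h | ⟨h3, h⟩⟩⟩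
  · left
    linarith
  · right
    exact ⟨by rw [h1], Or.inl h⟩
  · exact absurd h (lt_irrefl _)
  · right
    refine ⟨by rw [h1], Or.inr ⟨h2, Or.inr ⟨rfl, ?_⟩⟩⟩
    have e : ((MM G L : ℕ) : ℤ) * z = G.M * (L * z) := by
      unfold MM
      push_cast
      ring
    rw [e]
    exact G.shift0 _ _ _ _ _ h

theorem s_inj0 (w w' : SA R G) (b b' : ℤ) (h : hgt0 R G L w b = hgt0 R G L w' b') : w = w' := by
  unfold hgt0 at h
  simp only [toLex_inj, Prod.mk.injEq] at h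
  exact sa_ext (R.inj_of R.h0E h.2.1) (G.inj0 _ _ _ _ h.2.2.2)

theorem s_c0 (w w' : SA R G) (hw : w < w') (b b' : ℤ) (τ : ST R G)
    (h : hgt0 R G L w b < hgt0 R G L w' b') : hgt R G L τ w b < hgt R G L τ w' b' := by
  set s := (ofLex (ofLex τ).2).2 with hs
  rw [hgt0_eq w b s, hgt0_eq w' b' s, lex_lt] at h
  unfold hgt
  rw [lex_lt]
  rcases h with h | ⟨h1, h2⟩
  · exact Or.inl h
  · right
    refine ⟨h1, ?_⟩
    rw [← h1] at h2 ⊢
    refine stt_cross ?_ (sa_lt.1 hw) h2.le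
    rcases lt_or_eq_of_le (R.ht0 (tm R G τ (b / (MM G L : ℤ)))) with h3 | h3
    · exact Or.inl h3
    · exact Or.inr ⟨h3, Or.inr R.h0E⟩

theorem s_cT (w w' : SA R G) (hw : w < w') (b b' : ℤ) (τ τ' : ST R G) (hτ : τ < τ')
    (h : hgt R G L τ w b ≤ hgt R G L τ w' b') : hgt R G L τ' w b < hgt R G L τ' w' b' := by
  unfold hgt at h ⊢
  rw [lex_le] at h
  rw [lex_lt]
  rcases h with h | ⟨h1, h2⟩
  · exact Or.inl h
  · right
    refine ⟨h1, ?_⟩
    rw [← h1] at h2 ⊢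
    exact stt_cross (tm_lt hτ _) (sa_lt.1 hw) h2

theorem col_bd (l : Fin R.n) (t : R.T) (α : G.A) : |(R.col l t : ℤ) * G.E α| ≤ 18 * G.M := by
  have h1 : (R.col l t : ℤ) ≤ 2 := by exact_mod_cast R.col_le l t
  have h2 := G.hE α
  have h3 : (0 : ℤ) ≤ R.col l t := by positivity
  rw [abs_mul, abs_of_nonneg h3]
  nlinarith [abs_nonneg (G.E α)]

theorem s_c1 (hL : 0 < L) (w w' : SA R G) (hw : w < w') (b b' : ℤ) (τ : ST R G)
    (h : hgt R G L τ w b ≤ hgt R G L τ w' b') :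
    hgt0 R G L w (b + sE R G L w) < hgt0 R G L w' (b' + sE R G L w') := by
  have hMM : (0 : ℤ) < (MM G L : ℤ) := by
    unfold MM
    have := G.hM
    positivity
  have hx : b / (MM G L : ℤ) ≤ b' / (MM G L : ℤ) := by
    unfold hgt at h
    rw [lex_le] at h
    rcases h with h | h
    · exact h.le
    · exact h.1.le
  rw [sa_lt] at hw
  rcases hw with hl | ⟨hl, hα⟩
  · apply s_row0
    have h1 := Int.lt_ediv_add_one_mul_self b hMM
    have h2 := Int.ediv_mul_le b' hMM.ne'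
    have h3 : b / (MM G L : ℤ) * (MM G L : ℤ) ≤ b' / (MM G L : ℤ) * (MM G L : ℤ) :=
      mul_le_mul_of_nonneg_right hx hMM.le
    have h4 := abs_le.1 (col_bd (ofLex w).1 R.t1 (ofLex w).2)
    have h5 := abs_le.1 (col_bd (ofLex w').1 R.t1 (ofLex w').2)
    have h6 : (((ofLex w).1 : ℕ) : ℤ) + 1 ≤ ((ofLex w').1 : ℕ) := by
      have : ((ofLex w).1 : ℕ) < ((ofLex w').1 : ℕ) := hl
      omega
    have h7 : La G L = 2 * (MM G L : ℤ) + 36 * G.M := by
      unfold La MM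
      push_cast
      ring
    have h8 : (0 : ℤ) ≤ La G L := by
      unfold La
      positivity
    have h9 : (((ofLex w).1 : ℕ) - 4 : ℤ) * La G L + La G L
        ≤ (((ofLex w').1 : ℕ) - 4 : ℤ) * La G L := by nlinarith
    have h10 : b + sE R G L w + (MM G L : ℤ) ≤ b' + sE R G L w' := by
      unfold sE
      linarith [h4.2, h5.1]
    have h11 : (b + sE R G L w + (MM G L : ℤ)) / (MM G L : ℤ)
        ≤ (b' + sE R G L w') / (MM G L : ℤ) := edl hMM.le h10
    rw [Int.add_ediv_of_dvd_right (dvd_refl _), Int.ediv_self hMM.ne'] at h11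
    linarith
  · have hP : G.y0 (ofLex w).2 (b + (R.col (ofLex w).1 R.t1 : ℤ) * G.E (ofLex w).2)
        < G.y0 (ofLex w').2 (b' + (R.col (ofLex w).1 R.t1 : ℤ) * G.E (ofLex w').2) := by
      rcases lt_or_eq_of_le hx with h1 | h1
      · have h2 : G.y0 (ofLex w).2 b < G.y0 (ofLex w').2 b' := y0_of_row h1
        refine G.chain hα 0 _ (Nat.zero_le _) ?_
        simpa using h2
      · unfold hgt stt at h
        rw [← h1, lex_le, lex_le] at h
        have h2 := (h.resolve_left (lt_irrefl _)).2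
        rw [← hl] at h2
        have h3 := (h2.resolve_left (lt_irrefl _)).2
        rw [inn_le_iff] at h3
        refine G.chain hα _ _ ?_ (ii_nx hα h3)
        unfold nx
        split_ifs with h4
        · rw [h4.2]
          refine R.col_lt ?_ h4.1
          refine lt_of_le_of_ne (R.ht1 _) ?_
          intro h5
          rw [h5] at h4
          exact R.h1E h4.1
        · exact R.col_mono _ (R.ht1 _)
    have hS := G.shift0 _ _ _ _ ((((ofLex w).1 : ℕ) - 4 : ℤ) * (2 * L + 36)) hP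
    have e1 : b + sE R G L w = b + (R.col (ofLex w).1 R.t1 : ℤ) * G.E (ofLex w).2
        + G.M * ((((ofLex w).1 : ℕ) - 4 : ℤ) * (2 * L + 36)) := by
      unfold sE La
      ring
    have e2 : b' + sE R G L w' = b' + (R.col (ofLex w).1 R.t1 : ℤ) * G.E (ofLex w').2
        + G.M * ((((ofLex w).1 : ℕ) - 4 : ℤ) * (2 * L + 36)) := by
      unfold sE La
      rw [hl]
      ring
    rw [← e1, ← e2] at hS
    have h4 : (b + sE R G L w) / (MM G L : ℤ) ≤ (b' + sE R G L w') / (MM G L : ℤ) := row_of_y0 hS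
    unfold hgt0
    rw [lex_lt, lex_lt, lex_lt]
    rcases lt_or_eq_of_le h4 with h5 | h5
    · exact Or.inl h5
    · exact Or.inr ⟨h5, Or.inr ⟨by rw [hl], Or.inr ⟨rfl, hS⟩⟩⟩

end step

end Pool.Agent.PPoly
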