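import Pool.Agent.PPoly.Step2

/-!
# The step: levels of the used crossings
-/

namespace Pool.Agent.PPoly

open Finset

section step

variable (R : Small) (G : Flow) (L : ℕ)

/-- used times of a row -/
def sU (x : ℤ) : Finset (ST R G) :=
  (R.E ×ˢ ((Ico (x * L + 18) ((x + 1) * L - 18)).biUnion G.U)).map
    ⟨fun z => toLex (x, toLex (z.1, z.2)), fun z z' h => by
      simp only [toLex_inj, Prod.mk.injEq, true_and] at h
      exact Prod.ext h.1 h.2⟩

/-- lower pseudoline -/
def sLo (τ : ST R G) : SA R G × ℤ :=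
  (toLex (R.lo (ofLex (ofLex τ).2).1, (G.lo (ofLex (ofLex τ).2).2).1),
    (G.lo (ofLex (ofLex τ).2).2).2 - (R.col (R.lo (ofLex (ofLex τ).2).1) (ofLex (ofLex τ).2).1 : ℤ)
      * G.E (G.lo (ofLex (ofLex τ).2).2).1)

/-- upper pseudoline -/
def sUp (τ : ST R G) : SA R G × ℤ :=
  (toLex (R.lo (ofLex (ofLex τ).2).1, (G.up (ofLex (ofLex τ).2).2).1),
    (G.up (ofLex (ofLex τ).2).2).2 - (R.col (R.lo (ofLex (ofLex τ).2).1) (ofLex (ofLex τ).2).1 : ℤ)
      * G.E (G.up (ofLex (ofLex τ).2).2).1)

variable {R G L}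

theorem mem_sU {x : ℤ} {τ : ST R G} : τ ∈ sU R G L x ↔
    ∃ t ∈ R.E, ∃ z : ℤ, x * L + 18 ≤ z ∧ z < (x + 1) * L - 18 ∧ ∃ s ∈ G.U z,
      τ = toLex (x, toLex (t, s)) := by
  unfold sU
  rw [mem_map]
  constructor
  · rintro ⟨w, hw, rfl⟩
    rw [mem_product, mem_biUnion] at hw
    obtain ⟨h1, z, hz, h2⟩ := hw
    rw [mem_Ico] at hz
    exact ⟨w.1, h1, z, hz.1, hz.2, w.2, h2, rfl⟩
  · rintro ⟨t, ht, z, h1, h2, s, hs, rfl⟩
    refine ⟨(t, s), ?_, rfl⟩
    rw [mem_product, mem_biUnion]
    exact ⟨ht, z, mem_Ico.2 ⟨h1, h2⟩, hs⟩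

theorem card_sU (x : ℤ) (hL : 36 ≤ L) :
    (sU R G L x).card = R.E.card * ((L - 36) * G.m) := by
  unfold sU
  rw [card_map, card_product, card_biUnion]
  · rw [sum_congr rfl (fun z _ => G.Ucard z), sum_const, Int.card_Ico, smul_eq_mul]
    congr 2
    have h1 : (x + 1) * (L : ℤ) - 18 - (x * L + 18) = ((L - 36 : ℕ) : ℤ) := by
      push_cast [Nat.cast_sub hL]
      ring
    rw [h1, Int.toNat_natCast]
  · intro z _ z' _ hne
    change Disjoint (G.U z) (G.U z')
    rw [disjoint_left]
    intro s hs hs'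
    exact hne ((G.Urow _ _ hs).symm.trans (G.Urow _ _ hs'))

theorem MMpos (hL : 0 < L) : (0 : ℤ) < (MM G L : ℤ) := by
  unfold MM
  have := G.hM
  positivity

/-- a full row of the block -/
theorem full {x z : ℤ} (h1 : x * L + 18 ≤ z) (h2 : z < (x + 1) * L - 18)
    {b : ℤ} (hb : b / (G.M : ℤ) = z) (l : Fin R.n) (t : R.T) (α : G.A) :
    x * (MM G L : ℤ) ≤ b - (R.col l t : ℤ) * G.E α ∧
      b - (R.col l t : ℤ) * G.E α < (x + 1) * (MM G L : ℤ) := by
  have hM : (0 : ℤ) < G.M := by exact_mod_cast G.hM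
  have h3 := Int.lt_ediv_add_one_mul_self b hM
  have h4 := Int.ediv_mul_le b hM.ne'
  rw [hb] at h3 h4
  have h5 := abs_le.1 (col_bd l t α)
  have h6 : (x * L + 18) * (G.M : ℤ) ≤ z * G.M := mul_le_mul_of_nonneg_right h1 hM.le
  have h7 : (z + 1) * (G.M : ℤ) ≤ ((x + 1) * L - 18) * G.M :=
    mul_le_mul_of_nonneg_right (by linarith) hM.le
  have h8 : (MM G L : ℤ) = G.M * L := by
    unfold MM
    push_cast
    rfl
  rw [h8]
  constructor
  · nlinarith [h5.2]
  · nlinarith [h5.1]

theorem div_eq (hL : 0 < L) {x b : ℤ} (h : x * (MM G L : ℤ) ≤ b ∧ b < (x + 1) * (MM G L : ℤ)) :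
    b / (MM G L : ℤ) = x := by
  have hM := MMpos (G := G) hL
  apply le_antisymm
  · have := (Int.ediv_lt_iff_lt_mul hM).2 h.2
    omega
  · exact (Int.le_ediv_iff_mul_le hM).2 h.1

theorem mem_blk (hL : 0 < L) {x : ℤ} {w : G.A × ℤ} : w ∈ blk G L x ↔ w.2 / (MM G L : ℤ) = x := by
  unfold blk
  rw [mem_product, mem_Ico]
  constructor
  · intro h
    exact div_eq hL h.2
  · intro h
    have hM := MMpos (G := G) hL
    refine ⟨mem_univ _, ?_, ?_⟩
    · rw [← h]
      exact Int.ediv_mul_le _ hM.ne'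
    · rw [← h]
      exact Int.lt_ediv_add_one_mul_self _ hM

theorem card_blk (x : ℤ) : (blk G L x).card = Fintype.card G.A * MM G L := by
  unfold blk
  rw [card_product, card_univ, Int.card_Ico]
  congr 1
  have : (x + 1) * (MM G L : ℤ) - x * (MM G L : ℤ) = (MM G L : ℤ) := by ring
  rw [this, Int.toNat_natCast]

/-- height in the lower block at an event -/
theorem cur_sub (l : Fin R.n) (t : R.T) (α : G.A) (b : ℤ) :
    cur R G l t α (b - (R.col l t : ℤ) * G.E α) = b := by
  unfold cur
  ring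

/-- the data of a used time -/
theorem hgt_row {x : ℤ} {t : R.T} {s : G.T} (w : SA R G) {b : ℤ}
    (hb : b / (MM G L : ℤ) = x) : hgt R G L (toLex (x, toLex (t, s))) w b
      = toLex (x, stt R G L x t s (ofLex w).1 (ofLex w).2 b) := by
  unfold hgt tm
  rw [hb]
  simp only [ofLex_toLex, fr_self]

theorem rk_inj (x : ℤ) (t : R.T) {w w' : G.A × ℤ} (hw : w ∈ blk G L x) (hw' : w' ∈ blk G L x)
    (h : rk R G L x t w.1 w.2 = rk R G L x t w'.1 w'.2) : w = w' := by
  have key : ∀ v v' : G.A × ℤ, v' ∈ blk G L x →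
      G.y0 v.1 (cur R G (R.up t) t v.1 v.2) < G.y0 v'.1 (cur R G (R.up t) t v'.1 v'.2) →
      rk R G L x t v'.1 v'.2 < rk R G L x t v.1 v.2 := by
    intro v v' hv' hlt
    refine card_lt_card ?_
    rw [ssubset_iff_of_subset]
    · refine ⟨v', ?_, ?_⟩
      · rw [mem_filter]
        exact ⟨hv', hlt⟩
      · rw [mem_filter]
        intro h2
        exact lt_irrefl _ h2.2
    · intro u hu
      rw [mem_filter] at hu ⊢
      exact ⟨hu.1, lt_trans hlt hu.2⟩
  rcases lt_trichotomy (G.y0 w.1 (cur R G (R.up t) t w.1 w.2))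
    (G.y0 w'.1 (cur R G (R.up t) t w'.1 w'.2)) with h1 | h1 | h1
  · have := key _ _ hw' h1
    omega
  · obtain ⟨h2, h3⟩ := G.inj0' h1
    rw [h2] at h3
    exact Prod.ext h2 (cur_inj h3)
  · have := key _ _ hw h1
    omega

theorem rk_lt_card {x : ℤ} {t : R.T} {w : G.A × ℤ} (hw : w ∈ blk G L x) :
    rk R G L x t w.1 w.2 < (blk G L x).card := by
  refine card_lt_card ?_
  rw [ssubset_iff_of_subset (filter_subset _ _)]
  refine ⟨w, hw, ?_⟩
  rw [mem_filter]
  intro h
  exact lt_irrefl _ h.2

theorem cnt_rk (x : ℤ) (t : R.T) {r : ℕ} (hr : r ≤ (blk G L x).card) :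
    ((blk G L x).filter (fun w => rk R G L x t w.1 w.2 < r)).card = r := by
  have himg : (blk G L x).image (fun w => rk R G L x t w.1 w.2)
      = range (blk G L x).card := by
    apply eq_of_subset_of_card_le
    · intro z hz
      rw [mem_image] at hz
      obtain ⟨w, hw, rfl⟩ := hz
      rw [mem_range]
      exact rk_lt_card hw
    · rw [card_range, card_image_of_injOn]
      intro w hw w' hw' h
      exact rk_inj x t hw hw' h
  have h2 : ((blk G L x).filter (fun w => rk R G L x t w.1 w.2 < r)).image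
      (fun w => rk R G L x t w.1 w.2) = range r := by
    ext z
    rw [mem_image, mem_range]
    constructor
    · rintro ⟨i, hi, rfl⟩
      rw [mem_filter] at hi
      exact hi.2
    · intro hz
      have : z ∈ (blk G L x).image (fun w => rk R G L x t w.1 w.2) := by
        rw [himg, mem_range]
        omega
      rw [mem_image] at this
      obtain ⟨i, hi, rfl⟩ := this
      exact ⟨i, by rw [mem_filter]; exact ⟨hi, hz⟩, rfl⟩
  have h3 := congrArg card h2
  rw [card_image_of_injOn, card_range] at h3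
  · exact h3
  · intro w hw w' hw' h
    rw [mem_coe, mem_filter] at hw hw'
    exact rk_inj x t hw.1 hw'.1 h

theorem rr_le (x : ℤ) (t : R.T) (s : G.T) : rr R G L x t s ≤ (blk G L x).card :=
  card_filter_le _ _

/-- count in the lower block -/
theorem cnt_lo (hL : 0 < L) {x z : ℤ} (h1 : x * L + 18 ≤ z) (h2 : z < (x + 1) * L - 18)
    (t : R.T) {s : G.T} (hs : s ∈ G.U z) :
    ((blk G L x).filter (fun w => G.y s w.1 (cur R G (R.lo t) t w.1 w.2)
      < G.y s (G.lo s).1 (G.lo s).2)).card = rr R G L x t s + G.K := by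
  have hrow := G.Urow _ _ hs
  have hset : (blk G L x).filter (fun w => G.y s w.1 (cur R G (R.lo t) t w.1 w.2)
      < G.y s (G.lo s).1 (G.lo s).2)
      = (blk G L x).filter (fun w => cur R G (R.lo t) t w.1 w.2 / (G.M : ℤ) < G.row s) ∪
        (((univ : Finset G.A) ×ˢ Ico (z * (G.M : ℤ)) ((z + 1) * (G.M : ℤ))).filter
          (fun w => G.y s w.1 w.2 < G.y s (G.lo s).1 (G.lo s).2)).image
          (fun w => (w.1, w.2 - (R.col (R.lo t) t : ℤ) * G.E w.1)) := by
    ext w
    rw [mem_filter, mem_union, mem_filter, mem_image]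
    constructor
    · rintro ⟨hw, h3⟩
      by_cases h4 : cur R G (R.lo t) t w.1 w.2 / (G.M : ℤ) < G.row s
      · exact Or.inl ⟨hw, h4⟩
      · right
        have h5 : cur R G (R.lo t) t w.1 w.2 / (G.M : ℤ) = z := by
          rw [hrow] at h4
          rcases lt_or_eq_of_le (not_lt.1 h4) with h6 | h6
          · exfalso
            rw [← G.rlo _ _ hs] at h6
            exact lt_asymm h3 (G.rowy s _ _ _ _ h6)
          · exact h6.symm
        have hM : (0 : ℤ) < G.M := by exact_mod_cast G.hM
        refine ⟨(w.1, cur R G (R.lo t) t w.1 w.2), ?_, ?_⟩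
        · rw [mem_filter, mem_product, mem_Ico]
          refine ⟨⟨mem_univ _, ?_, ?_⟩, h3⟩
          · rw [← h5]
            exact Int.ediv_mul_le _ hM.ne'
          · rw [← h5]
            exact Int.lt_ediv_add_one_mul_self _ hM
        · apply Prod.ext
          · rfl
          · unfold cur
            simp
    · rintro (⟨hw, h3⟩ | ⟨v, hv, rfl⟩)
      · refine ⟨hw, ?_⟩
        apply G.rowy
        rw [G.rlo _ _ hs, ← hrow]
        exact h3
      · rw [mem_filter, mem_product, mem_Ico] at hv
        obtain ⟨⟨_, h3, h4⟩, h5⟩ := hv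
        have hM : (0 : ℤ) < G.M := by exact_mod_cast G.hM
        have h6 : v.2 / (G.M : ℤ) = z := by
          apply le_antisymm
          · have := (Int.ediv_lt_iff_lt_mul hM).2 h4
            omega
          · exact (Int.le_ediv_iff_mul_le hM).2 h3
        constructor
        · rw [mem_blk hL]
          exact div_eq hL (full h1 h2 h6 _ _ _)
        · simp only
          rw [cur_sub]
          exact h5
  rw [hset, card_union_of_disjoint, card_image_of_injective]
  · rw [G.evK _ _ hs]
    rfl
  · intro v v' h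
    have h3 := Prod.mk.inj h
    obtain ⟨h4, h5⟩ := h3
    rw [h4] at h5
    exact Prod.ext h4 (by linarith)
  · rw [disjoint_left]
    intro w hw hw'
    rw [mem_filter] at hw
    rw [mem_image] at hw'
    obtain ⟨v, hv, rfl⟩ := hw'
    rw [mem_filter, mem_product, mem_Ico] at hv
    have h3 := hw.2
    simp only at h3
    rw [cur_sub, hrow] at h3
    have hM : (0 : ℤ) < G.M := by exact_mod_cast G.hM
    have h4 := (Int.le_ediv_iff_mul_le hM).2 hv.1.2.1
    omega

/-- count in the upper block -/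
theorem cnt_up (x : ℤ) (t : R.T) (s : G.T) :
    ((blk G L x).filter (fun w => ¬ rk R G L x t w.1 w.2 < rr R G L x t s)).card
      = (blk G L x).card - rr R G L x t s := by
  have h1 := card_filter_add_card_filter_not (s := blk G L x)
    (fun w : G.A × ℤ => rk R G L x t w.1 w.2 < rr R G L x t s)
  rw [cnt_rk x t (rr_le x t s)] at h1
  omega

/-- height of the lower pseudoline at a used time -/
theorem hgt_lo (hL : 0 < L) {x z : ℤ} (h1 : x * L + 18 ≤ z) (h2 : z < (x + 1) * L - 18)
    {t : R.T} (ht : t ∈ R.E) {s : G.T} (hs : s ∈ G.U z) :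
    hgt R G L (toLex (x, toLex (t, s))) (sLo R G (toLex (x, toLex (t, s)))).1
      (sLo R G (toLex (x, toLex (t, s)))).2
      = toLex (x, toLex (R.y t (R.lo t), toLex (toLex (1, 2 * z),
        G.y s (G.lo s).1 (G.lo s).2))) := by
  unfold sLo
  simp only [ofLex_toLex]
  rw [hgt_row _ (div_eq hL (full h1 h2 (G.rlo _ _ hs) _ _ _))]
  unfold stt
  simp only [ofLex_toLex]
  rw [inn_lo ht rfl, cur_sub, G.rlo _ _ hs]

theorem hgt_up (hL : 0 < L) {x z : ℤ} (h1 : x * L + 18 ≤ z) (h2 : z < (x + 1) * L - 18)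
    {t : R.T} (ht : t ∈ R.E) {s : G.T} (hs : s ∈ G.U z) :
    hgt R G L (toLex (x, toLex (t, s))) (sUp R G (toLex (x, toLex (t, s)))).1
      (sUp R G (toLex (x, toLex (t, s)))).2
      = toLex (x, toLex (R.y t (R.lo t), toLex (toLex (1, 2 * z),
        G.y s (G.up s).1 (G.up s).2))) := by
  unfold sUp
  simp only [ofLex_toLex]
  rw [hgt_row _ (div_eq hL (full h1 h2 (G.rup _ _ hs) _ _ _))]
  unfold stt
  simp only [ofLex_toLex]
  rw [inn_lo ht rfl, cur_sub, G.rup _ _ hs]

/-- pseudolines of one type -/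
def tyEmb (R : Small) (G : Flow) (l : Fin R.n) : G.A × ℤ ↪ SA R G × ℤ :=
  ⟨fun w => (toLex (l, w.1), w.2), fun w w' h => by
    have h1 := Prod.mk.inj h
    have h2 := (toLex_inj.1 h1.1)
    exact Prod.ext (Prod.mk.inj h2).2 h1.2⟩

theorem tyEmb_apply (l : Fin R.n) (w : G.A × ℤ) : tyEmb R G l w = (toLex (l, w.1), w.2) := rfl

theorem cnt_total (hL : 0 < L) {x z : ℤ} (h1 : x * L + 18 ≤ z) (h2 : z < (x + 1) * L - 18)
    {t : R.T} (ht : t ∈ R.E) {s : G.T} (hs : s ∈ G.U z) :
    (((univ : Finset (SA R G)) ×ˢ Ico (x * (MM G L : ℤ)) ((x + 1) * (MM G L : ℤ))).filter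
      (fun w => hgt R G L (toLex (x, toLex (t, s))) w.1 w.2
        < hgt R G L (toLex (x, toLex (t, s))) (sLo R G (toLex (x, toLex (t, s)))).1
          (sLo R G (toLex (x, toLex (t, s)))).2)).card
      = R.K * (Fintype.card G.A * MM G L) + Fintype.card G.A * MM G L + G.K := by
  have hrow := G.Urow _ _ hs
  have hne := R.lo_ne_up ht
  rw [hgt_lo hL h1 h2 ht hs]
  set h0 : SY G := toLex (x, toLex (R.y t (R.lo t), toLex (toLex (1, 2 * z),
        G.y s (G.lo s).1 (G.lo s).2))) with hh0
  set N := Fintype.card G.A * MM G L with hN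
  rw [card_eq_sum_card_fiberwise (f := fun w : SA R G × ℤ => (ofLex w.1).1) (t := univ)
    (fun _ _ => mem_coe.2 (mem_univ _))]
  have hfib : ∀ l : Fin R.n, ((((univ : Finset (SA R G)) ×ˢ
      Ico (x * (MM G L : ℤ)) ((x + 1) * (MM G L : ℤ))).filter
      (fun w => hgt R G L (toLex (x, toLex (t, s))) w.1 w.2 < h0)).filter
      (fun w => (ofLex w.1).1 = l)).card
      = ((blk G L x).filter (fun w => stt R G L x t s l w.1 w.2
        < toLex (R.y t (R.lo t), toLex (toLex (1, 2 * z),
        G.y s (G.lo s).1 (G.lo s).2)))).card := by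
    intro l
    rw [← card_map (tyEmb R G l)]
    congr 1
    ext w
    rw [mem_filter, mem_filter, mem_product, mem_Ico, mem_map]
    constructor
    · rintro ⟨⟨⟨_, h3⟩, h4⟩, h5⟩
      refine ⟨((ofLex w.1).2, w.2), ?_, ?_⟩
      · rw [mem_filter, mem_blk hL]
        refine ⟨div_eq hL h3, ?_⟩
        rw [hgt_row _ (div_eq hL h3), hh0, lex_lt, h5] at h4
        rcases h4 with h4 | h4
        · exact absurd h4 (lt_irrefl _)
        · exact h4.2
      · rw [tyEmb_apply]
        apply Prod.ext
        · apply sa_ext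
          · exact h5.symm
          · rfl
        · rfl
    · rintro ⟨v, hv, rfl⟩
      rw [mem_filter, mem_blk hL] at hv
      rw [tyEmb_apply]
      have hv2 := hv.1
      rw [← mem_blk hL] at hv2
      unfold blk at hv2
      rw [mem_product, mem_Ico] at hv2
      refine ⟨⟨⟨mem_univ _, hv2.2⟩, ?_⟩, rfl⟩
      rw [hgt_row _ hv.1, hh0, lex_lt]
      exact Or.inr ⟨rfl, hv.2⟩
  rw [sum_congr rfl (fun l _ => hfib l)]
  have h3 : ∀ l : Fin R.n, ((blk G L x).filter (fun w => stt R G L x t s l w.1 w.2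
        < toLex (R.y t (R.lo t), toLex (toLex (1, 2 * z),
        G.y s (G.lo s).1 (G.lo s).2)))).card
      = (if R.y t l < R.y t (R.lo t) then N else 0)
        + ((if l = R.lo t then rr R G L x t s + G.K else 0)
          + (if l = R.up t then N - rr R G L x t s else 0)) := by
    intro l
    by_cases hx1 : l = R.lo t
    · subst hx1
      rw [if_neg (lt_irrefl _), if_pos rfl, if_neg hne, zero_add, add_zero]
      rw [← cnt_lo hL h1 h2 t hs]
      congr 1
      ext w
      rw [mem_filter, mem_filter]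
      refine and_congr_right (fun _ => ?_)
      unfold stt
      rw [lex_lt, inn_lo ht rfl, lex_lt, lex_lt]
      constructor
      · rintro (h | ⟨_, (h | ⟨h, h'⟩) | ⟨_, h⟩⟩)
        · exact absurd h (lt_irrefl _)
        · exact absurd h (lt_irrefl _)
        · apply G.rowy
          rw [G.rlo _ _ hs]
          linarith
        · exact h
      · intro h
        right
        refine ⟨rfl, ?_⟩
        rcases lt_trichotomy (cur R G (R.lo t) t w.1 w.2 / (G.M : ℤ)) z with h4 | h4 | h4
        · left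
          right
          exact ⟨rfl, by linarith⟩
        · right
          rw [h4]
          exact ⟨rfl, h⟩
        · exfalso
          rw [← G.rlo _ _ hs] at h4
          exact lt_asymm h (G.rowy s _ _ _ _ h4)
    · by_cases hx2 : l = R.up t
      · subst hx2
        rw [← R.evy t ht, if_neg (lt_irrefl _), if_neg (Ne.symm hne), if_pos rfl, zero_add,
          zero_add, hN, ← card_blk (G := G) (L := L) x, ← cnt_up x t s]
        congr 1
        ext w
        rw [mem_filter, mem_filter]
        refine and_congr_right (fun _ => ?_)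
        unfold stt inn
        rw [if_neg (fun h => hne h.2.symm), ← R.evy t ht]
        by_cases h4 : rk R G L x t w.1 w.2 < rr R G L x t s
        · rw [if_pos ⟨ht, rfl, h4⟩, lex_lt, lex_lt, lex_lt]
          simp only [h4, not_true_eq_false, iff_false]
          rintro (h | ⟨_, (h | ⟨_, h⟩) | ⟨h, _⟩⟩)
          · exact absurd h (lt_irrefl _)
          · exact absurd h (lt_irrefl _)
          · rw [hrow] at h
            omega
          · rw [toLex_inj, Prod.mk.injEq, hrow] at h
            omega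
        · rw [if_neg (fun h => h4 h.2.2), lex_lt, lex_lt, lex_lt]
          simp only [h4, not_false_eq_true, iff_true]
          exact Or.inr ⟨trivial, Or.inl (Or.inl Int.zero_lt_one)⟩
      · rw [if_neg hx1, if_neg hx2, add_zero, add_zero]
        by_cases hlt : R.y t l < R.y t (R.lo t)
        · rw [if_pos hlt, hN, ← card_blk (G := G) (L := L) x]
          congr 1
          rw [filter_eq_self]
          intro w _
          unfold stt
          rw [lex_lt]
          exact Or.inl hlt
        · rw [if_neg hlt, card_eq_zero, filter_eq_empty_iff]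
          intro w _ h
          unfold stt at h
          rw [lex_lt] at h
          rcases h with h | h
          · exact hlt h
          · rcases R.eq_lo h.1 with h5 | h5
            · exact hx1 h5
            · exact hx2 h5.2
  rw [sum_congr rfl (fun l _ => h3 l), sum_add_distrib, sum_add_distrib, sum_ite_eq',
    sum_ite_eq', if_pos (mem_univ _), if_pos (mem_univ _)]
  have h4 : ∑ l : Fin R.n, (if R.y t l < R.y t (R.lo t) then N else 0) = R.K * N := by
    rw [← sum_filter, sum_const, smul_eq_mul, R.evK t ht]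
  rw [h4]
  have h5 : rr R G L x t s ≤ N := by
    rw [hN, ← card_blk (G := G) (L := L) x]
    exact rr_le _ _ _
  omega

end step

end Pool.Agent.PPoly
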