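import Pool.Agent.PPoly.Step3

/-!
# The step: the new flow
-/

namespace Pool.Agent.PPoly

open Finset

theorem sE_bd {R : Small} {G : Flow} {L : ℕ} (hL : 162 ≤ L) (w : SA R G) :
    |sE R G L w| ≤ 9 * (MM G L : ℕ) := by
  have h1 : (((ofLex w).1 : ℕ) : ℤ) < 9 := by
    have h2 := (ofLex w).1.2
    have h3 := R.hn
    omega
  have h2 : (0 : ℤ) ≤ ((ofLex w).1 : ℕ) := by positivity
  have h3 : |((((ofLex w).1 : ℕ) : ℤ) - 4)| ≤ 4 := by
    rw [abs_le]
    constructor <;> omega
  have h4 : (0 : ℤ) ≤ La G L := by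
    unfold La
    positivity
  have h5 := col_bd (ofLex w).1 R.t1 (ofLex w).2
  have h6 : |((((ofLex w).1 : ℕ) : ℤ) - 4) * La G L| ≤ 4 * La G L := by
    rw [abs_mul, abs_of_nonneg h4]
    exact mul_le_mul_of_nonneg_right h3 h4
  have h7 : |sE R G L w| ≤ 4 * La G L + 18 * G.M := by
    unfold sE
    exact (abs_add_le _ _).trans (add_le_add h6 h5)
  refine h7.trans ?_
  unfold La MM
  have h8 : (162 : ℤ) ≤ L := by exact_mod_cast hL
  have h9 : (0 : ℤ) ≤ G.M := by positivity
  push_cast
  nlinarith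

/-- One step. -/
def Flow.step (R : Small) (G : Flow) (L : ℕ) (hL : 162 ≤ L) : Flow where
  A := SA R G
  T := ST R G
  Y := SY G
  M := MM G L
  hM := by
    unfold MM
    exact Nat.mul_pos G.hM (by omega)
  E := sE R G L
  hE := sE_bd hL
  y0 := hgt0 R G L
  y := hgt R G L
  row := fun τ => (ofLex τ).1
  U := sU R G L
  m := R.E.card * ((L - 36) * G.m)
  K := R.K * (Fintype.card G.A * MM G L) + Fintype.card G.A * MM G L + G.K
  lo := sLo R G
  up := sUp R G
  tt := toLex (0, toLex (R.t0, G.tt))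
  mono0 := s_mono0
  mono := s_mono
  row0 := s_row0
  rowy := s_rowy
  shift0 := s_shift0 (by omega)
  inj0 := s_inj0
  c0 := s_c0
  cT := s_cT
  c1 := s_c1 (by omega)
  rmono := by
    intro t t' h
    rw [Prod.Lex.le_iff] at h
    rcases h with h | h
    · exact h.le
    · exact h.1.le
  Urow := by
    intro a τ h
    rw [mem_sU] at h
    obtain ⟨t, _, z, _, _, s, _, rfl⟩ := h
    rfl
  Ucard := fun a => card_sU a (by omega)
  evs := by
    intro a τ h
    rw [mem_sU] at h
    obtain ⟨t, _, z, _, _, s, hs, rfl⟩ := h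
    rw [sa_lt]
    exact Or.inr ⟨rfl, G.evs _ _ hs⟩
  evy := by
    intro a τ h
    rw [mem_sU] at h
    obtain ⟨t, ht, z, h1, h2, s, hs, rfl⟩ := h
    rw [hgt_lo (by omega) h1 h2 ht hs, hgt_up (by omega) h1 h2 ht hs, G.evy _ _ hs]
  tie := by
    intro a τ h w b h3
    rw [mem_sU] at h
    obtain ⟨t, ht, z, h1, h2, s, hs, rfl⟩ := h
    rw [hgt_lo (by omega) h1 h2 ht hs] at h3
    have hb : b / (MM G L : ℤ) = a := by
      unfold hgt at h3
      rw [toLex_inj, Prod.mk.injEq] at h3
      exact h3.1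
    rw [hgt_row _ hb] at h3
    unfold stt at h3
    simp only [toLex_inj, Prod.mk.injEq, true_and] at h3
    obtain ⟨h4, h5⟩ := h3
    have hne := R.lo_ne_up ht
    rcases R.eq_lo h4 with h6 | ⟨_, h6⟩
    · rw [inn_lo ht h6] at h5
      simp only [toLex_inj, Prod.mk.injEq] at h5
      have hcur : cur R G (ofLex w).1 t (ofLex w).2 b
          = b + (R.col (R.lo t) t : ℤ) * G.E (ofLex w).2 := by
        unfold cur
        rw [h6]
      rcases G.tie _ _ hs _ _ h5.2 with h7 | h7
      · left
        have h8 := congrArg Prod.fst h7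
        have h9 := congrArg Prod.snd h7
        simp only at h8 h9
        apply Prod.ext
        · exact sa_ext h6 h8
        · simp only [sLo, ofLex_toLex]
          rw [← h9, hcur, ← h8]
          ring
      · right
        have h8 := congrArg Prod.fst h7
        have h9 := congrArg Prod.snd h7
        simp only at h8 h9
        apply Prod.ext
        · exact sa_ext h6 h8
        · simp only [sUp, ofLex_toLex]
          rw [← h9, hcur, ← h8]
          ring
    · exfalso
      unfold inn at h5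
      rw [if_neg (fun h => hne (h.2.symm.trans h6))] at h5
      split_ifs at h5 with h7
      · simp only [toLex_inj, Prod.mk.injEq] at h5
        omega
      · simp only [toLex_inj, Prod.mk.injEq] at h5
        omega
  rlo := by
    intro a τ h
    rw [mem_sU] at h
    obtain ⟨t, _, z, h1, h2, s, hs, rfl⟩ := h
    exact div_eq (by omega) (full h1 h2 (G.rlo _ _ hs) _ _ _)
  rup := by
    intro a τ h
    rw [mem_sU] at h
    obtain ⟨t, _, z, h1, h2, s, hs, rfl⟩ := h
    exact div_eq (by omega) (full h1 h2 (G.rup _ _ hs) _ _ _)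
  evK := by
    intro a τ h
    rw [mem_sU] at h
    obtain ⟨t, ht, z, h1, h2, s, hs, rfl⟩ := h
    exact cnt_total (by omega) h1 h2 ht hs

theorem Flow.step_M (R : Small) (G : Flow) (L : ℕ) (hL : 162 ≤ L) :
    (Flow.step R G L hL).M = G.M * L := rfl

theorem Flow.step_m (R : Small) (G : Flow) (L : ℕ) (hL : 162 ≤ L) :
    (Flow.step R G L hL).m = R.E.card * ((L - 36) * G.m) := rfl

theorem Flow.step_A (R : Small) (G : Flow) (L : ℕ) (hL : 162 ≤ L) :
    Fintype.card (Flow.step R G L hL).A = R.n * Fintype.card G.A := by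
  have h1 : Fintype.card (Flow.step R G L hL).A = Fintype.card (Fin R.n ×ₗ G.A) := rfl
  rw [h1]
  have h2 : Fintype.card (Fin R.n ×ₗ G.A) = Fintype.card (Fin R.n × G.A) :=
    Fintype.card_congr ofLex
  rw [h2, Fintype.card_prod, Fintype.card_fin]

end Pool.Agent.PPoly
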